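import Pool.Agent.Lib.MP_472c23_co.CaseB

/-!
# The counting inequality when `G` has no positive element up to `n`
-/

set_option autoImplicit false

namespace Pool.Agent.Lib.MP_472c23_co

open scoped Pointwise

theorem caseA {s n : ℕ} {G : AddSubmonoid ℕ} (hn : 2 * s ≤ n + 1)
    (hG : ∀ y ∈ G, y ≠ 0 → n < y) :
    (0 : ℤ) ≤ cnt G (6 * n) + cnt G n - cnt G (3 * n) - 2 * cnt G (2 * n) - remG G s n := by
  classical
  let X : Finset ℕ := (Finset.Ioc n (3 * n)).filter (· ∈ G)
  let Y : Finset ℕ := (Finset.Ioc (3 * n) (6 * n)).filter (· ∈ G)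
  let T2 : Finset ℕ := (Finset.Ioc n (2 * n)).filter (· ∈ G)
  let T3 : Finset ℕ := (Finset.Ioc (2 * n) (3 * n)).filter (· ∈ G)
  have memX : ∀ x, x ∈ X ↔ (n < x ∧ x ≤ 3 * n) ∧ x ∈ G := by
    intro x; rw [Finset.mem_filter, Finset.mem_Ioc]
  have memY : ∀ x, x ∈ Y ↔ (3 * n < x ∧ x ≤ 6 * n) ∧ x ∈ G := by
    intro x; rw [Finset.mem_filter, Finset.mem_Ioc]
  have memT2 : ∀ x, x ∈ T2 ↔ (n < x ∧ x ≤ 2 * n) ∧ x ∈ G := by
    intro x; rw [Finset.mem_filter, Finset.mem_Ioc]
  have memT3 : ∀ x, x ∈ T3 ↔ (2 * n < x ∧ x ≤ 3 * n) ∧ x ∈ G := by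
    intro x; rw [Finset.mem_filter, Finset.mem_Ioc]
  have hXcard : X.card = T2.card + T3.card := by
    rw [← Finset.card_union_of_disjoint]
    · congr 1
      ext x
      rw [Finset.mem_union, memX, memT2, memT3]
      constructor
      · rintro ⟨h1, h2⟩
        rcases le_or_gt x (2 * n) with h | h
        · exact Or.inl ⟨⟨h1.1, h⟩, h2⟩
        · exact Or.inr ⟨⟨h, h1.2⟩, h2⟩
      · rintro (⟨h1, h2⟩ | ⟨h1, h2⟩)
        · exact ⟨by omega, h2⟩
        · exact ⟨by omega, h2⟩
    · rw [Finset.disjoint_left]
      intro x hx1 hx2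
      rw [memT2] at hx1
      rw [memT3] at hx2
      omega
  -- the counting functions
  have c1 : cnt G n = 0 := by
    unfold cnt
    rw [Finset.card_eq_zero, Finset.filter_eq_empty_iff]
    intro y hy hyG
    rw [Finset.mem_Icc] at hy
    have := hG y hyG (by omega)
    omega
  have c2 : cnt G (2 * n) = T2.card := by
    unfold cnt
    congr 1
    ext y
    rw [Finset.mem_filter, Finset.mem_Icc, memT2]
    constructor
    · rintro ⟨h1, h2⟩
      have := hG y h2 (by omega)
      exact ⟨by omega, h2⟩
    · rintro ⟨h1, h2⟩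
      exact ⟨by omega, h2⟩
  have c3 : cnt G (3 * n) = X.card := by
    unfold cnt
    congr 1
    ext y
    rw [Finset.mem_filter, Finset.mem_Icc, memX]
    constructor
    · rintro ⟨h1, h2⟩
      have := hG y h2 (by omega)
      exact ⟨by omega, h2⟩
    · rintro ⟨h1, h2⟩
      exact ⟨by omega, h2⟩
  have c6 : cnt G (6 * n) = X.card + Y.card := by
    rw [← Finset.card_union_of_disjoint]
    · unfold cnt
      congr 1
      ext y
      rw [Finset.mem_filter, Finset.mem_Icc, Finset.mem_union, memX, memY]
      constructor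
      · rintro ⟨h1, h2⟩
        have := hG y h2 (by omega)
        rcases le_or_gt y (3 * n) with h | h
        · exact Or.inl ⟨⟨this, h⟩, h2⟩
        · exact Or.inr ⟨⟨h, h1.2⟩, h2⟩
      · rintro (⟨h1, h2⟩ | ⟨h1, h2⟩)
        · exact ⟨by omega, h2⟩
        · exact ⟨by omega, h2⟩
    · rw [Finset.disjoint_left]
      intro x hx1 hx2
      rw [memX] at hx1
      rw [memY] at hx2
      omega
  -- the odd numbers
  let O : Finset ℕ := ((Finset.range s).filter (fun i => 2 * n + (2 * i + 1) ∈ G)).image
    fun i => 2 * n + (2 * i + 1)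
  have hO : O.card = remG G s n := by
    unfold remG
    exact Finset.card_image_of_injective _ fun a b h => by
      have : 2 * n + (2 * a + 1) = 2 * n + (2 * b + 1) := h
      omega
  have hOsub : O ⊆ T3 := by
    intro x hx
    rw [Finset.mem_image] at hx
    obtain ⟨i, hi, rfl⟩ := hx
    rw [Finset.mem_filter, Finset.mem_range] at hi
    rw [memT3]
    exact ⟨by omega, hi.2⟩
  have hOodd : ∀ x ∈ O, x % 2 = 1 := by
    intro x hx
    rw [Finset.mem_image] at hx
    obtain ⟨i, _, rfl⟩ := hx
    omega
  have hOle := Finset.card_le_card hOsub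
  suffices h : 2 * T2.card + O.card ≤ Y.card by
    rw [c1, c2, c3, c6, ← hO]
    push_cast
    have : (2 * T2.card + O.card : ℤ) ≤ Y.card := by exact_mod_cast h
    linarith
  rcases X.eq_empty_or_nonempty with hX | hX
  · rw [hX, Finset.card_empty] at hXcard
    omega
  -- sumset
  have hXX := cauchy_davenport_add_of_linearOrder_isCancelAdd hX hX
  have hmemXX : ∀ z ∈ X + X, 2 * n < z ∧ z ≤ 6 * n ∧ z ∈ G := by
    intro z hz
    rw [Finset.mem_add] at hz
    obtain ⟨x, hx, y, hy, rfl⟩ := hz
    rw [memX] at hx hy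
    exact ⟨by omega, by omega, G.add_mem hx.2 hy.2⟩
  have hsplit : X + X ⊆ Y ∪ ((X + X) ∩ T3) := by
    intro z hz
    have h1 := hmemXX z hz
    rw [Finset.mem_union, Finset.mem_inter, memY, memT3]
    rcases le_or_gt z (3 * n) with h | h
    · exact Or.inr ⟨hz, ⟨h1.1, h⟩, h1.2.2⟩
    · exact Or.inl ⟨⟨h, h1.2.1⟩, h1.2.2⟩
  have hcard := (Finset.card_le_card hsplit).trans (Finset.card_union_le _ _)
  have hXpos : 0 < X.card := Finset.card_pos.mpr hX
  have ht : ((X + X) ∩ T3).card ≤ T3.card := Finset.card_le_card Finset.inter_subset_right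
  rcases Nat.eq_zero_or_pos T3.card with hl | hl
  · -- `T3` is empty
    have hT3 : T3 = ∅ := Finset.card_eq_zero.mp hl
    have ht0 : ((X + X) ∩ T3).card = 0 := by omega
    obtain ⟨M, hM, hMmax⟩ := X.exists_max_image id hX
    have hM2 : M ≤ 2 * n := by
      by_contra hcon
      have : M ∈ T3 := by
        rw [memT3]
        rw [memX] at hM
        exact ⟨by omega, hM.2⟩
      rw [hT3] at this
      simp at this
    have hmm : M + M ∈ X + X := Finset.add_mem_add hM hM
    have hmm2 := hmemXX _ hmm
    have hmm3 : 3 * n < M + M := by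
      by_contra hcon
      have : M + M ∈ T3 := by
        rw [memT3]
        exact ⟨by omega, hmm2.2.2⟩
      rw [hT3] at this
      simp at this
    have hMG := ((memX M).mp hM).2
    have h3M : M + M + M ∈ Y := by
      rw [memY]
      exact ⟨by omega, G.add_mem (G.add_mem hMG hMG) hMG⟩
    have hnot : M + M + M ∉ X + X := by
      intro hcon
      rw [Finset.mem_add] at hcon
      obtain ⟨x, hx, y, hy, hxy⟩ := hcon
      have h1 := hMmax x hx
      have h2 := hMmax y hy
      simp only [id] at h1 h2
      omega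
    have hsub : insert (M + M + M) (X + X) ⊆ Y := by
      intro z hz
      rw [Finset.mem_insert] at hz
      rcases hz with rfl | hz
      · exact h3M
      · have := hsplit hz
        rw [Finset.mem_union, hT3, Finset.inter_empty] at this
        rcases this with h | h
        · exact h
        · simp at h
    have h4 := Finset.card_le_card hsub
    rw [Finset.card_insert_of_notMem hnot] at h4
    omega
  · by_cases hA : ((X + X) ∩ T3).card < T3.card ∨ O.card < T3.card
    · omega
    · exfalso
      push Not at hA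
      have hO2 : O = T3 := Finset.eq_of_subset_of_card_le hOsub hA.2
      have hT : (X + X) ∩ T3 = T3 :=
        Finset.eq_of_subset_of_card_le Finset.inter_subset_right hA.1
      obtain ⟨z, hz⟩ := Finset.card_pos.mp hl
      have hz2 : z ∈ X + X := by
        rw [← hT] at hz
        exact (Finset.mem_inter.mp hz).1
      have hzodd : z % 2 = 1 := hOodd z (hO2 ▸ hz)
      rw [memT3] at hz
      rw [Finset.mem_add] at hz2
      obtain ⟨x, hx, y, hy, rfl⟩ := hz2
      rw [memX] at hx hy
      have key : ∀ u v, n < u → u ∈ G → u < v → u + v ≤ 3 * n → False := by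
        intro u v hu huG huv huv2
        have h5 : u + u ∈ T3 := by
          rw [memT3]
          exact ⟨by omega, G.add_mem huG huG⟩
        have h6 := hOodd _ (hO2 ▸ h5)
        omega
      rcases lt_trichotomy x y with h | h | h
      · exact key x y hx.1.1 hx.2 h hz.1.2
      · omega
      · exact key y x hy.1.1 hy.2 h (by omega)

/-- **The counting inequality.** -/
theorem counting {s n : ℕ} (hs : s = 1 ∨ s = 2 ∨ s = 4) (hn : 2 * s ≤ n + 1)
    (h9 : s = 4 → n % 9 ≠ 1) (G : AddSubmonoid ℕ) (hforb : ∀ x, Forb s x → x ∉ G) :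
    remG G s n + cnt G (3 * n) + 2 * cnt G (2 * n) ≤ cnt G (6 * n) + cnt G n := by
  classical
  suffices h : (0 : ℤ) ≤ cnt G (6 * n) + cnt G n - cnt G (3 * n) - 2 * cnt G (2 * n) -
      remG G s n by
    have : (remG G s n + cnt G (3 * n) + 2 * cnt G (2 * n) : ℤ) ≤ cnt G (6 * n) + cnt G n := by
      linarith
    exact_mod_cast this
  by_cases hA : ∀ y ∈ G, y ≠ 0 → n < y
  · exact caseA hn hA
  · push Not at hA
    have hex : ∃ p, p ∈ G ∧ p ≠ 0 := by
      obtain ⟨y, h1, h2, _⟩ := hA
      exact ⟨y, h1, h2⟩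
    have hpG : Nat.find hex ∈ G := (Nat.find_spec hex).1
    have hp0 : Nat.find hex ≠ 0 := (Nat.find_spec hex).2
    have hmin : ∀ y ∈ G, y ≠ 0 → Nat.find hex ≤ y := fun y h1 h2 => Nat.find_min' hex ⟨h1, h2⟩
    have hpn : Nat.find hex ≤ n := by
      obtain ⟨y, h1, h2, h3⟩ := hA
      exact (hmin y h1 h2).trans h3
    obtain ⟨p, hp⟩ : ∃ p, p = Nat.find hex := ⟨_, rfl⟩
    rw [← hp] at hpG hp0 hmin hpn
    clear hp
    have hppos : 0 < p := Nat.pos_of_ne_zero hp0
    have hν := Nat.mod_lt n hppos
    have hodd : ∀ i, i < s → p ≠ 2 * i + 1 := by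
      rintro i hi rfl
      exact hforb _ ⟨i, hi, rfl⟩ hpG
    rcases Nat.lt_or_ge p 8 with h8 | h8
    · -- small moduli
      rcases hs with rfl | rfl | rfl
      · have := hodd 0 (by norm_num)
        exact caseB hppos hpG hmin hpn hn hforb (rowOK1 hν (by omega) (by omega))
      · have := hodd 0 (by norm_num)
        have := hodd 1 (by norm_num)
        exact caseB hppos hpG hmin hpn hn hforb (rowOK2 hν (by omega))
      · have := hodd 0 (by norm_num)
        have := hodd 1 (by norm_num)
        have := hodd 2 (by norm_num)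
        have := hodd 3 (by norm_num)
        rcases (show p = 2 ∨ p = 4 ∨ p = 6 by omega) with rfl | rfl | rfl
        · exact caseB_two hpG (by omega) hforb
        · by_cases h3 : n % 4 = 3
          · exact caseB_four hpG (by omega) h3 hmin hforb
          · exact caseB hppos hpG hmin hpn hn hforb (rowOK4 hν (Or.inl ⟨rfl, h3⟩) (by omega))
        · exact caseB hppos hpG hmin hpn hn hforb
            (rowOK4 hν (Or.inr (Or.inl rfl)) (by omega))
    · by_cases h91 : p = 9 ∧ n % p = 1
      · obtain ⟨rfl, h1⟩ := h91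
        rcases hs with rfl | rfl | rfl
        · refine caseB hppos hpG hmin hpn hn hforb ?_
          rw [h1]
          exact rowOK_9_1.1
        · refine caseB hppos hpG hmin hpn hn hforb ?_
          rw [h1]
          exact rowOK_9_1.2
        · exact absurd h1 (h9 rfl)
      · -- reduce to `s = 4`
        have hforb4 : ∀ x, Forb 4 x → x ∉ G := by
          rintro x ⟨i, hi, rfl⟩ hx
          have := hmin _ hx (by omega)
          omega
        have h4 := caseB (s := 4) hppos hpG hmin hpn (by omega) hforb4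
          (rowOK4 hν (Or.inr (Or.inr h8)) h91)
        have hle : remG G s n ≤ remG G 4 n := by
          unfold remG
          refine Finset.card_le_card ?_
          intro i hi
          rw [Finset.mem_filter, Finset.mem_range] at hi ⊢
          exact ⟨by omega, hi.2⟩
        have hle' : (remG G s n : ℤ) ≤ remG G 4 n := by exact_mod_cast hle
        linarith

end Pool.Agent.Lib.MP_472c23_co
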