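import Pool.Agent.Lib.GCI.Fintype
import Pool.Agent.Lib.MP_472c23_co.CaseA

/-!
# Application of the positivity theorem
-/

set_option autoImplicit false

namespace Pool.Agent.Lib.MP_472c23_co

open Polynomial

/-- `(1 - X) (1 - X ^ 2) ⋯ (1 - X ^ m)` -/
noncomputable def Qp (m : ℕ) : ℤ[X] := ∏ i ∈ Finset.Icc 1 m, (1 - X ^ i)

theorem Qp_ne_zero (m : ℕ) : Qp m ≠ 0 := by
  unfold Qp
  rw [Finset.prod_ne_zero_iff]
  intro i hi h
  rw [Finset.mem_Icc] at hi
  have := congrArg (fun p => Polynomial.coeff p 0) h
  simp only [coeff_sub, coeff_one_zero, coeff_X_pow, coeff_zero] at this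
  rw [if_neg (by omega)] at this
  norm_num at this

theorem Qp_split {m k : ℕ} (h : m ≤ k) :
    Qp k = Qp m * ∏ i ∈ Finset.Ioc m k, (1 - X ^ i : ℤ[X]) := by
  unfold Qp
  rw [← Finset.prod_union]
  · congr 1
    ext i
    simp only [Finset.mem_union, Finset.mem_Icc, Finset.mem_Ioc]
    omega
  · rw [Finset.disjoint_left]
    intro i hi hi2
    rw [Finset.mem_Icc] at hi
    rw [Finset.mem_Ioc] at hi2
    omega

theorem not_forb_closure {s : ℕ} {B : Set ℕ} (hB : ∀ x ∈ B, ¬ Forb s x) :
    ∀ x, Forb s x → x ∉ AddSubmonoid.closure B := by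
  intro x hx hmem
  have : ¬ Forb s x := by
    induction hmem using AddSubmonoid.closure_induction with
    | mem y hy => exact hB y hy
    | zero =>
      rintro ⟨i, _, hi⟩
      omega
    | add y z _ _ hy hz =>
      rintro ⟨i, hi, hi2⟩
      rcases Nat.even_or_odd' y with ⟨c, hc | hc⟩
      · rcases Nat.even_or_odd' z with ⟨d, hd | hd⟩
        · omega
        · exact hz ⟨d, by omega, hd⟩ (by
            exact ⟨d, by omega, hd⟩)
      · exact hy ⟨c, by omega, hc⟩ (by exact ⟨c, by omega, hc⟩)
  exact this hx

/-- **Positivity of `S_s`** for `n ≥ 2 s - 1`. -/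
theorem exists_S {s n : ℕ} (hs : s = 1 ∨ s = 2 ∨ s = 4) (hn : 2 * s ≤ n + 1)
    (h9 : s = 4 → n % 9 ≠ 1) :
    ∃ P : ℤ[X], (∀ k, 0 ≤ P.coeff k) ∧
      P * ((∏ i ∈ Finset.range s, (1 - X ^ (2 * n + (2 * i + 1)))) * Qp (3 * n) * Qp (2 * n) ^ 2) =
        (∏ i ∈ Finset.range s, (1 - X ^ (2 * i + 1))) * Qp (6 * n) * Qp n := by
  classical
  have hs1 : 1 ≤ s := by omega
  have hn1 : 1 ≤ n := by omega
  let D1 : Finset ℕ := (Finset.Icc 1 (2 * n)).filter (fun x => ¬ Forb s x)
  let D0 : Finset ℕ := (Finset.Icc 1 (2 * n)).filter (fun x => Forb s x)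
  let D2 : Finset ℕ := Finset.Ioc n (2 * n)
  let N : Finset ℕ := Finset.Ioc (3 * n) (6 * n)
  have hD0 : D0 = (Finset.range s).image fun i => 2 * i + 1 := by
    ext x
    rw [Finset.mem_filter, Finset.mem_Icc, Finset.mem_image]
    constructor
    · rintro ⟨_, i, hi, rfl⟩
      exact ⟨i, Finset.mem_range.mpr hi, rfl⟩
    · rintro ⟨i, hi, rfl⟩
      rw [Finset.mem_range] at hi
      exact ⟨by omega, i, hi, rfl⟩
  have hD0card : D0.card = s := by
    rw [hD0, Finset.card_image_of_injective _ (fun a b h => by
      have : 2 * a + 1 = 2 * b + 1 := h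
      omega), Finset.card_range]
  have hD1card : D1.card + s = 2 * n := by
    have h1 : D0.card + D1.card = (Finset.Icc 1 (2 * n)).card :=
      Finset.card_filter_add_card_filter_not _
    rw [hD0card, Nat.card_Icc] at h1
    omega
  let b : D1 ⊕ (D2 ⊕ Fin s) → ℕ :=
    Sum.elim (fun x => (x : ℕ)) (Sum.elim (fun x => (x : ℕ)) fun i => 2 * n + (2 * (i : ℕ) + 1))
  let a : N → ℕ := fun x => (x : ℕ)
  have hcard : Fintype.card (D1 ⊕ (D2 ⊕ Fin s)) = Fintype.card N := by
    rw [Fintype.card_sum, Fintype.card_sum, Fintype.card_coe, Fintype.card_coe, Fintype.card_coe,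
      Fintype.card_fin, Nat.card_Ioc, Nat.card_Ioc]
    omega
  have hbF : ∀ x, ¬ Forb s (b x) := by
    rintro (⟨x, hx⟩ | ⟨x, hx⟩ | i) h
    · rw [Finset.mem_filter] at hx
      exact hx.2 h
    · rw [Finset.mem_Ioc] at hx
      obtain ⟨j, hj, hj2⟩ := h
      have hj3 : x = 2 * j + 1 := hj2
      omega
    · obtain ⟨j, hj, hj2⟩ := h
      have hj3 : 2 * n + (2 * (i : ℕ) + 1) = 2 * j + 1 := hj2
      omega
  have hb0 : ∀ x, b x ≠ 0 := by
    rintro (⟨x, hx⟩ | ⟨x, hx⟩ | i) h
    · rw [Finset.mem_filter, Finset.mem_Icc] at hx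
      have h' : x = 0 := h
      omega
    · rw [Finset.mem_Ioc] at hx
      have h' : x = 0 := h
      omega
    · have h' : 2 * n + (2 * (i : ℕ) + 1) = 0 := h
      omega
  obtain ⟨P, hP1, hP2⟩ := GCI.exists_polynomial_fintype hcard b a hb0
    (by
      rintro ⟨x, hx⟩ h
      rw [Finset.mem_Ioc] at hx
      have h' : x = 0 := h
      omega)
    (by
      intro L hL
      let G : AddSubmonoid ℕ := AddSubmonoid.closure (b '' (L : Set (D1 ⊕ (D2 ⊕ Fin s))))
      have hforb : ∀ x, Forb s x → x ∉ G := by
        apply not_forb_closure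
        rintro _ ⟨x, _, rfl⟩
        exact hbF x
      have hmain := counting hs hn h9 G hforb
      have hmem : ∀ x ∈ L, b x ∈ G := fun x hx => AddSubmonoid.subset_closure ⟨x, hx, rfl⟩
      let J : Finset N := Finset.univ.filter fun x => (x : ℕ) ∈ G
      refine ⟨J, ?_, ?_⟩
      · -- the three parts of `L`
        have hJ : J.card + cnt G (3 * n) = cnt G (6 * n) := by
          have h1 : J.card = (N.filter (· ∈ G)).card := by
            rw [← Finset.card_map (Function.Embedding.subtype _)]
            congr 1
            ext x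
            simp only [J, Finset.mem_map, Finset.mem_filter, Finset.mem_univ, true_and,
              Function.Embedding.subtype_apply, Subtype.exists, exists_and_right, exists_eq_right]
            constructor
            · rintro ⟨h1, h2⟩; exact ⟨h1, h2⟩
            · rintro ⟨h1, h2⟩; exact ⟨h1, h2⟩
          rw [h1]
          unfold cnt
          rw [← Finset.card_union_of_disjoint]
          · congr 1
            ext x
            simp only [N, Finset.mem_union, Finset.mem_filter, Finset.mem_Ioc, Finset.mem_Icc]
            constructor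
            · rintro (⟨h1, h2⟩ | ⟨h1, h2⟩)
              · exact ⟨by omega, h2⟩
              · exact ⟨by omega, h2⟩
            · rintro ⟨h1, h2⟩
              rcases le_or_gt x (3 * n) with h | h
              · exact Or.inr ⟨by omega, h2⟩
              · exact Or.inl ⟨by omega, h2⟩
          · rw [Finset.disjoint_left]
            intro x hx1 hx2
            simp only [N, Finset.mem_filter, Finset.mem_Ioc, Finset.mem_Icc] at hx1 hx2
            omega
        have hA1 : (L.filter fun x => x.isLeft = true).card ≤ cnt G (2 * n) := by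
          unfold cnt
          refine Finset.card_le_card_of_injOn b ?_ ?_
          · rintro (⟨x, hx⟩ | y) hxL
            · rw [Finset.mem_coe, Finset.mem_filter] at hxL
              rw [Finset.mem_coe, Finset.mem_filter]
              refine ⟨?_, hmem _ hxL.1⟩
              rw [Finset.mem_filter] at hx
              exact hx.1
            · rw [Finset.mem_coe, Finset.mem_filter] at hxL
              simp at hxL
          · rintro (⟨x, hx⟩ | y) hxL (⟨x', hx'⟩ | y') hxL' hbb
            · have : x = x' := hbb
              subst this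
              rfl
            · rw [Finset.mem_coe, Finset.mem_filter] at hxL'
              simp at hxL'
            · rw [Finset.mem_coe, Finset.mem_filter] at hxL
              simp at hxL
            · rw [Finset.mem_coe, Finset.mem_filter] at hxL
              simp at hxL
        have hA2 : (L.filter fun x => x.isLeft = false).card + cnt G n ≤
            cnt G (2 * n) + remG G s n := by
          have h1 : (L.filter fun x => x.isLeft = false).card ≤
              (D2.filter (· ∈ G)).card + remG G s n := by
            unfold remG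
            rw [← Finset.card_disjSum]
            let f : D1 ⊕ (D2 ⊕ Fin s) → ℕ ⊕ ℕ := Sum.elim (fun _ => Sum.inl 0)
                (Sum.elim (fun y => Sum.inl (y : ℕ)) fun i => Sum.inr (i : ℕ))
            refine Finset.card_le_card_of_injOn f ?_ ?_
            · rintro (⟨x, hx⟩ | ⟨x, hx⟩ | i) hxL
              · rw [Finset.mem_coe, Finset.mem_filter] at hxL
                simp at hxL
              · rw [Finset.mem_coe, Finset.mem_filter] at hxL
                have h2 : x ∈ G := hmem _ hxL.1
                simp only [f, Sum.elim_inr, Sum.elim_inl, Finset.mem_coe, Finset.inl_mem_disjSum,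
                  Finset.mem_filter]
                exact ⟨hx, h2⟩
              · rw [Finset.mem_coe, Finset.mem_filter] at hxL
                have h2 : 2 * n + (2 * (i : ℕ) + 1) ∈ G := hmem _ hxL.1
                simp only [f, Sum.elim_inr, Finset.mem_coe, Finset.inr_mem_disjSum,
                  Finset.mem_filter, Finset.mem_range]
                exact ⟨i.2, h2⟩
            · rintro (⟨x, hx⟩ | ⟨x, hx⟩ | i) hxL (⟨x', hx'⟩ | ⟨x', hx'⟩ | i') hxL' hbb
              · rw [Finset.mem_coe, Finset.mem_filter] at hxL
                simp at hxL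
              · rw [Finset.mem_coe, Finset.mem_filter] at hxL
                simp at hxL
              · rw [Finset.mem_coe, Finset.mem_filter] at hxL
                simp at hxL
              · rw [Finset.mem_coe, Finset.mem_filter] at hxL'
                simp at hxL'
              · have : x = x' := by simpa [f] using hbb
                subst this
                rfl
              · simp [f] at hbb
              · rw [Finset.mem_coe, Finset.mem_filter] at hxL'
                simp at hxL'
              · simp [f] at hbb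
              · have : (i : ℕ) = i' := by simpa [f] using hbb
                have : i = i' := Fin.ext this
                subst this
                rfl
          have h2 : (D2.filter (· ∈ G)).card + cnt G n = cnt G (2 * n) := by
            unfold cnt
            rw [← Finset.card_union_of_disjoint]
            · congr 1
              ext x
              simp only [D2, Finset.mem_union, Finset.mem_filter, Finset.mem_Ioc, Finset.mem_Icc]
              constructor
              · rintro (⟨h1, h2⟩ | ⟨h1, h2⟩)
                · exact ⟨by omega, h2⟩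
                · exact ⟨by omega, h2⟩
              · rintro ⟨h1, h2⟩
                rcases le_or_gt x n with h | h
                · exact Or.inr ⟨by omega, h2⟩
                · exact Or.inl ⟨by omega, h2⟩
            · rw [Finset.disjoint_left]
              intro x hx1 hx2
              simp only [D2, Finset.mem_filter, Finset.mem_Ioc, Finset.mem_Icc] at hx1 hx2
              omega
          omega
        have hL2 : (L.filter fun x => x.isLeft = true).card +
            (L.filter fun x => x.isLeft = false).card = L.card := by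
          rw [← Finset.card_filter_add_card_filter_not (s := L) (fun x => x.isLeft = true)]
          congr 2
          refine Finset.filter_congr fun x _ => ?_
          simp
        omega
      · intro j hj
        rw [Finset.mem_filter] at hj
        exact hj.2)
  refine ⟨P, hP1, ?_⟩
  -- rewrite the products
  have p1 : ∏ i, (1 - X ^ b i : ℤ[X]) = (∏ x ∈ D1, (1 - X ^ x)) * ((∏ x ∈ D2, (1 - X ^ x)) *
      ∏ i ∈ Finset.range s, (1 - X ^ (2 * n + (2 * i + 1)))) := by
    rw [Fintype.prod_sum_type, Fintype.prod_sum_type]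
    simp only [b, Sum.elim_inl, Sum.elim_inr]
    rw [Finset.prod_coe_sort D1 (fun x => (1 - X ^ x : ℤ[X])),
      Finset.prod_coe_sort D2 (fun x => (1 - X ^ x : ℤ[X])),
      Finset.prod_range fun i => (1 - X ^ (2 * n + (2 * i + 1)) : ℤ[X])]
  have p2 : ∏ j, (1 - X ^ a j : ℤ[X]) = ∏ x ∈ N, (1 - X ^ x) := by
    simp only [a]
    rw [Finset.prod_coe_sort N (fun x => (1 - X ^ x : ℤ[X]))]
  have p3 : Qp (2 * n) = (∏ i ∈ Finset.range s, (1 - X ^ (2 * i + 1))) *
      ∏ x ∈ D1, (1 - X ^ x : ℤ[X]) := by
    have h1 : ∏ x ∈ D0, (1 - X ^ x : ℤ[X]) = ∏ i ∈ Finset.range s, (1 - X ^ (2 * i + 1)) := by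
      rw [hD0, Finset.prod_image]
      intro x _ y _ h
      have : 2 * x + 1 = 2 * y + 1 := h
      omega
    rw [← h1]
    unfold Qp
    exact (Finset.prod_filter_mul_prod_filter_not _ _ _).symm
  have p4 : Qp (2 * n) = Qp n * ∏ x ∈ D2, (1 - X ^ x : ℤ[X]) := Qp_split (by omega)
  have p6 : Qp (6 * n) = Qp (3 * n) * ∏ x ∈ N, (1 - X ^ x : ℤ[X]) := Qp_split (by omega)
  rw [p1, p2] at hP2
  calc P * ((∏ i ∈ Finset.range s, (1 - X ^ (2 * n + (2 * i + 1)))) * Qp (3 * n) *
        Qp (2 * n) ^ 2)
      = P * ((∏ i ∈ Finset.range s, (1 - X ^ (2 * n + (2 * i + 1)))) * Qp (3 * n) *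
        (((∏ i ∈ Finset.range s, (1 - X ^ (2 * i + 1))) * ∏ x ∈ D1, (1 - X ^ x : ℤ[X])) *
          (Qp n * ∏ x ∈ D2, (1 - X ^ x : ℤ[X])))) := by
        rw [← p3, ← p4, sq]
    _ = (P * ((∏ x ∈ D1, (1 - X ^ x)) * ((∏ x ∈ D2, (1 - X ^ x)) *
      ∏ i ∈ Finset.range s, (1 - X ^ (2 * n + (2 * i + 1)))))) *
        ((∏ i ∈ Finset.range s, (1 - X ^ (2 * i + 1))) * Qp (3 * n) * Qp n) := by ring
    _ = _ := by rw [hP2, p6]; ring

end Pool.Agent.Lib.MP_472c23_co
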