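import Pool.Agent.Lib.MP_472c23_co.Large

/-!
# The local inequality for small moduli, by a finite check
-/

set_option autoImplicit false

namespace Pool.Agent.Lib.MP_472c23_co

/-- relevant classes for each row -/
def relT : ℕ → ℕ → ℕ → List ℕ
  | 1, 5, 1 => [2]
  | 1, 6, 1 => [2]
  | 1, 7, 1 => [2, 4]
  | 1, 9, 1 => [2, 4]
  | 2, 4, 3 => [1, 2]
  | 2, 5, 1 => [2, 4]
  | 2, 5, 3 => [4, 3]
  | 2, 5, 4 => [1, 3]
  | 2, 6, 1 => [2]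
  | 2, 6, 5 => [1]
  | 2, 7, 1 => [2, 4]
  | 2, 9, 1 => [2, 4]
  | 4, 6, 1 => [2, 3, 4]
  | 4, 6, 2 => [3]
  | 4, 6, 5 => [3]
  | 4, 8, 1 => [1, 2, 3, 4]
  | 4, 8, 2 => [3]
  | 4, 8, 3 => [5]
  | 4, 8, 5 => [1, 7, 3, 6]
  | 4, 8, 6 => [1, 2, 4]
  | 4, 8, 7 => [3, 5, 2]
  | 4, 9, 2 => [4, 8]
  | 4, 9, 3 => [4, 8]
  | 4, 9, 5 => [6, 3]
  | 4, 9, 6 => [1, 2, 4]
  | 4, 9, 7 => [1, 3, 2, 6]
  | 4, 9, 8 => [5]
  | 4, 10, 1 => [2, 4]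
  | 4, 10, 2 => [3, 4, 6]
  | 4, 10, 4 => [5]
  | 4, 10, 6 => [7, 4]
  | 4, 10, 7 => [1, 2]
  | 4, 10, 8 => [1, 3, 2, 5, 6]
  | 4, 10, 9 => [5]
  | 4, 11, 1 => [2, 4]
  | 4, 11, 2 => [3, 4, 6, 8]
  | 4, 11, 7 => [10, 9]
  | 4, 11, 8 => [1, 3]
  | 4, 11, 9 => [1, 3, 2, 4, 9]
  | 4, 12, 1 => [2, 4]
  | 4, 12, 2 => [3, 4, 6]
  | 4, 12, 7 => [9, 6]
  | 4, 12, 9 => [1, 2, 4]
  | 4, 12, 10 => [1, 3, 7]
  | 4, 13, 1 => [2, 4]
  | 4, 13, 2 => [3, 4, 6, 8]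
  | 4, 13, 3 => [6, 12]
  | 4, 13, 7 => [8, 3]
  | 4, 13, 8 => [10, 7]
  | 4, 13, 10 => [1, 2, 5]
  | 4, 13, 11 => [3]
  | 4, 14, 1 => [2, 4]
  | 4, 14, 2 => [3, 4, 6, 8]
  | 4, 14, 3 => [5, 6, 10]
  | 4, 14, 8 => [9, 4]
  | 4, 14, 11 => [1, 2, 6]
  | 4, 14, 12 => [3]
  | 4, 15, 1 => [2, 4]
  | 4, 15, 2 => [3, 4, 6, 8]
  | 4, 15, 3 => [4, 5, 6, 10]
  | 4, 15, 9 => [10, 5]
  | 4, 15, 12 => [1, 3, 7]
  | 4, 16, 1 => [2, 4]
  | 4, 16, 2 => [3, 4, 6, 8]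
  | 4, 16, 3 => [4, 5, 6, 10]
  | 4, 16, 13 => [1, 3, 9]
  | 4, 17, 1 => [2, 4]
  | 4, 17, 2 => [3, 4, 6, 8]
  | 4, 17, 3 => [4, 5, 6, 10]
  | 4, 17, 4 => [8]
  | 4, 17, 14 => [1, 3, 9]
  | 4, 18, 1 => [2, 4]
  | 4, 18, 2 => [3, 4, 6, 8]
  | 4, 18, 3 => [4, 5, 6, 10]
  | 4, 18, 4 => [7, 8, 14]
  | 4, 18, 15 => [1]

  | _, _, _ => []

theorem check_small4 : ((List.range 19).all fun p => (List.range p).all fun ν =>
    (p < 8 && p != 6 && !(p == 4 && ν != 3)) || (p == 9 && ν == 1) ||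
      check 4 p ν (relT 4 p ν)) = true := by
  decide +kernel

theorem check_small2 : ([2, 4, 5, 6, 7].all fun p => (List.range p).all fun ν =>
    check 2 p ν (relT 2 p ν)) = true := by
  decide +kernel

theorem check_small1 : ([2, 3, 4, 5, 6, 7].all fun p => (List.range p).all fun ν =>
    check 1 p ν (relT 1 p ν)) = true := by
  decide +kernel

theorem check_9_1 : (check 1 9 1 (relT 1 9 1) && check 2 9 1 (relT 2 9 1)) = true := by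
  decide +kernel

theorem rowOK4 {p ν : ℕ} (hν : ν < p) (hp : p = 4 ∧ ν ≠ 3 ∨ p = 6 ∨ 8 ≤ p)
    (h91 : ¬ (p = 9 ∧ ν = 1)) : RowOK 4 p ν := by
  rcases Nat.lt_or_ge p 19 with h | h
  · have h1 := check_small4
    rw [List.all_eq_true] at h1
    have h2 := h1 p (List.mem_range.mpr h)
    rw [List.all_eq_true] at h2
    have h3 := h2 ν (List.mem_range.mpr hν)
    simp only [Bool.or_eq_true, Bool.and_eq_true, decide_eq_true_eq, bne_iff_ne, ne_eq,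
      Bool.not_eq_true', beq_iff_eq, Bool.and_eq_false_imp, bne_eq_false_iff_eq] at h3
    rcases h3 with (h3 | h3) | h3
    · exfalso
      obtain ⟨⟨h4, h5⟩, h6⟩ := h3
      rcases hp with hp | hp | hp
      · exact hp.2 (h6 hp.1)
      · exact h5 hp
      · omega
    · exact absurd h3 h91
    · exact rowOK_of_check (by omega) _ h3
  · exact rowOK_large h hν

theorem rowOK2 {p ν : ℕ} (hν : ν < p) (hp : p = 2 ∨ p = 4 ∨ p = 5 ∨ p = 6 ∨ p = 7) :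
    RowOK 2 p ν := by
  have h1 := check_small2
  rw [List.all_eq_true] at h1
  have h2 := h1 p (by simpa using hp)
  rw [List.all_eq_true] at h2
  exact rowOK_of_check (by omega) _ (h2 ν (List.mem_range.mpr hν))

theorem rowOK1 {p ν : ℕ} (hν : ν < p) (hp1 : 2 ≤ p) (hp2 : p ≤ 7) : RowOK 1 p ν := by
  have h1 := check_small1
  rw [List.all_eq_true] at h1
  have h2 := h1 p (by simp; omega)
  rw [List.all_eq_true] at h2
  exact rowOK_of_check (by omega) _ (h2 ν (List.mem_range.mpr hν))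

theorem rowOK_9_1 : RowOK 1 9 1 ∧ RowOK 2 9 1 := by
  have h := check_9_1
  rw [Bool.and_eq_true] at h
  exact ⟨rowOK_of_check (by omega) _ h.1, rowOK_of_check (by omega) _ h.2⟩

end Pool.Agent.Lib.MP_472c23_co
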