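import Pool.Agent.Lib.MP_472c23_co.Count
import Pool.Agent.Lib.MP_472c23_co.Small

/-!
# The counting inequality when the smallest element of `G` is at most `n`
-/

set_option autoImplicit false

namespace Pool.Agent.Lib.MP_472c23_co

open Classical in
/-- number of odd numbers `2 n + 1, …, 2 n + 2 s - 1` in `G` -/
noncomputable def remG (G : AddSubmonoid ℕ) (s n : ℕ) : ℕ :=
  ((Finset.range s).filter (fun i => 2 * n + (2 * i + 1) ∈ G)).card

open Classical in
/-- the part of `remG` in the class `r` modulo `p` -/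
noncomputable def remR (G : AddSubmonoid ℕ) (s n p r : ℕ) : ℕ :=
  ((Finset.range s).filter (fun i => 2 * n + (2 * i + 1) ∈ G ∧
    (2 * n + (2 * i + 1)) % p = r % p)).card

theorem remG_eq_sum (G : AddSubmonoid ℕ) (s n : ℕ) {p : ℕ} (hp : 0 < p) :
    remG G s n = ∑ r ∈ Finset.Icc 1 p, remR G s n p r := by
  classical
  unfold remG remR
  have hmaps : ∀ i ∈ (Finset.range s).filter (fun i => 2 * n + (2 * i + 1) ∈ G),
      (if (2 * n + (2 * i + 1)) % p = 0 then p else (2 * n + (2 * i + 1)) % p) ∈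
        Finset.Icc 1 p := by
    intro i _
    have := Nat.mod_lt (2 * n + (2 * i + 1)) hp
    rw [Finset.mem_Icc]
    split_ifs <;> omega
  rw [Finset.card_eq_sum_card_fiberwise hmaps]
  refine Finset.sum_congr rfl fun r hr => ?_
  rw [Finset.filter_filter]
  congr 1
  refine Finset.filter_congr fun i _ => ?_
  rw [Finset.mem_Icc] at hr
  refine and_congr_right fun _ => ?_
  have h1 := Nat.mod_lt (2 * n + (2 * i + 1)) hp
  rcases Nat.lt_or_ge r p with h | h
  · rw [Nat.mod_eq_of_lt h]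
    split_ifs <;> omega
  · have : r = p := by omega
    subst this
    rw [Nat.mod_self]
    split_ifs <;> omega

theorem remR_le (G : AddSubmonoid ℕ) (s n p r : ℕ) : remR G s n p r ≤ remc s p (n % p) r := by
  classical
  unfold remR remc
  rw [List.countP_eq_length_filter]
  have h1 : ((List.range s).filter fun i => (2 * (n % p) + (2 * i + 1)) % p == r % p).length =
      ((Finset.range s).filter fun i => (2 * (n % p) + (2 * i + 1)) % p = r % p).card := by
    rw [← List.toFinset_card_of_nodup (List.nodup_range.filter _), List.toFinset_filter,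
      List.toFinset_range]
    congr 1
    refine Finset.filter_congr fun i _ => ?_
    rw [beq_iff_eq]
  rw [h1]
  refine Finset.card_le_card ?_
  intro i hi
  rw [Finset.mem_filter] at hi ⊢
  refine ⟨hi.1, ?_⟩
  rw [← hi.2.2]
  have : (2 * n + (2 * i + 1)) % p = (2 * (n % p) + (2 * i + 1)) % p := by
    rw [Nat.add_mod, Nat.mul_mod, Nat.add_mod (2 * (n % p)), Nat.mul_mod 2 (n % p), Nat.mod_mod]
  exact this.symm

theorem remR_pos {G : AddSubmonoid ℕ} {s n p r : ℕ} (h : 0 < remR G s n p r) :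
    ∃ i, i < s ∧ 2 * n + (2 * i + 1) ∈ G ∧ (2 * n + (2 * i + 1)) % p = r % p := by
  classical
  unfold remR at h
  rw [Finset.card_pos] at h
  obtain ⟨i, hi⟩ := h
  rw [Finset.mem_filter, Finset.mem_range] at hi
  exact ⟨i, hi⟩

theorem ediv_eq {p x F : ℤ} (hp : 0 < p) (h1 : p * F ≤ x) (h2 : x < p * F + p) : x / p = F := by
  apply le_antisymm
  · have : x / p < F + 1 := Int.ediv_lt_of_lt_mul hp (by linarith)
    omega
  · exact Int.le_ediv_of_mul_le hp (by linarith)

/-- if a multiple plus `r` is congruent … then the quotient is at least the minimal one -/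
theorem index_le {G : AddSubmonoid ℕ} {p r m x : ℕ} (hrp : r ≤ p)
    (hmin : ∀ i, i < m → i * p + r ∉ G) (hx : x ∈ G) (hx1 : 1 ≤ x) (hmod : x % p = r % p) :
    m * p + r ≤ x := by
  have hle : r ≤ x := by
    rcases Nat.lt_or_ge r p with h1 | h1
    · rw [Nat.mod_eq_of_lt h1] at hmod
      rw [← hmod]
      exact Nat.mod_le _ _
    · have : r = p := by omega
      subst this
      rw [Nat.mod_self] at hmod
      exact Nat.le_of_dvd (by omega) (Nat.dvd_of_mod_eq_zero hmod)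
  obtain ⟨i, hi⟩ : p ∣ x - r := (Nat.modEq_iff_dvd' hle).mp hmod.symm
  have hix : i * p + r = x := by rw [mul_comm]; omega
  have : m ≤ i := by
    by_contra hcon
    apply hmin i (by omega)
    rw [hix]
    exact hx
  have h2 : m * p ≤ i * p := Nat.mul_le_mul_right _ this
  omega

theorem num1 {q F1 d1 d2 e : ℤ} (hq : 1 ≤ q) (hF1 : F1 = -1 ∨ F1 = 0)
    (hd1 : d1 = 0 ∨ d1 = 1) (hd2 : d2 = 0 ∨ d2 = 1) (he : e = 0 ∨ e = 1 ∨ e = 2) :
    max 0 (6 * q + (2 * (F1 + d1 + d2) + e) - 1 + 1) + max 0 (q + F1 - 1 + 1)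
          - max 0 (3 * q + (F1 + d1 + d2) - 1 + 1) - 2 * max 0 (2 * q + (F1 + d1) - 1 + 1) =
      e + d2 - d1 := by
  rw [max_eq_right (by omega), max_eq_right (by omega), max_eq_right (by omega),
    max_eq_right (by omega)]
  ring

theorem num0 {q F1 d1 d2 e : ℤ} (hq : 1 ≤ q) (hF1 : F1 = -1 ∨ F1 = 0)
    (hd1 : d1 = 0 ∨ d1 = 1) (hd2 : d2 = 0 ∨ d2 = 1) (he : e = 0 ∨ e = 1 ∨ e = 2) :
    max 0 (6 * q + (2 * (F1 + d1 + d2) + e) - 0 + 1) + max 0 (q + F1 - 0 + 1)
          - max 0 (3 * q + (F1 + d1 + d2) - 0 + 1) - 2 * max 0 (2 * q + (F1 + d1) - 0 + 1) =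
      e + d2 - d1 - 1 := by
  rw [max_eq_right (by omega), max_eq_right (by omega), max_eq_right (by omega),
    max_eq_right (by omega)]
  ring

/-- general bound -/
theorem numG {q m F1 d1 d2 e : ℤ} (hq : 1 ≤ q) (hm : 0 ≤ m) (hF1 : F1 = -1 ∨ F1 = 0)
    (hd1 : d1 = 0 ∨ d1 = 1) (hd2 : d2 = 0 ∨ d2 = 1) (he : e = 0 ∨ e = 1 ∨ e = 2) :
    (m ≤ 3 * q + (F1 + d1 + d2) ∧
      min (e + d2 - d1 + m - 1) (3 * q - 1) ≤
      max 0 (6 * q + (2 * (F1 + d1 + d2) + e) - m + 1) + max 0 (q + F1 - m + 1)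
          - max 0 (3 * q + (F1 + d1 + d2) - m + 1) - 2 * max 0 (2 * q + (F1 + d1) - m + 1)) ∨
    (3 * q + (F1 + d1 + d2) < m ∧
      0 ≤
      max 0 (6 * q + (2 * (F1 + d1 + d2) + e) - m + 1) + max 0 (q + F1 - m + 1)
          - max 0 (3 * q + (F1 + d1 + d2) - m + 1) - 2 * max 0 (2 * q + (F1 + d1) - m + 1)) := by
  rcases le_or_gt m (3 * q + (F1 + d1 + d2)) with h | h
  · left
    refine ⟨h, ?_⟩
    rw [max_eq_right (show 0 ≤ 6 * q + (2 * (F1 + d1 + d2) + e) - m + 1 by omega),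
      max_eq_right (show 0 ≤ 3 * q + (F1 + d1 + d2) - m + 1 by omega)]
    rcases le_or_gt m (2 * q + (F1 + d1) + 1) with h2 | h2
    · rw [max_eq_right (show 0 ≤ 2 * q + (F1 + d1) - m + 1 by omega)]
      have := le_max_right 0 (q + F1 - m + 1)
      refine (min_le_left _ _).trans ?_
      linarith
    · rw [max_eq_left (show 2 * q + (F1 + d1) - m + 1 ≤ 0 by omega),
        max_eq_left (show q + F1 - m + 1 ≤ 0 by omega)]
      refine (min_le_right _ _).trans ?_
      omega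
  · right
    refine ⟨h, ?_⟩
    rw [max_eq_left (show 3 * q + (F1 + d1 + d2) - m + 1 ≤ 0 by omega),
      max_eq_left (show 2 * q + (F1 + d1) - m + 1 ≤ 0 by omega),
      max_eq_left (show q + F1 - m + 1 ≤ 0 by omega)]
    have := le_max_left 0 (6 * q + (2 * (F1 + d1 + d2) + e) - m + 1)
    omega

theorem num23 {q m F1 d1 d2 e : ℤ} (hq : 1 ≤ q) (hm : m = 2 ∨ m = 3) (hF1 : F1 = -1 ∨ F1 = 0)
    (hd1 : d1 = 0 ∨ d1 = 1) (hd2 : d2 = 0 ∨ d2 = 1) (he : e = 0 ∨ e = 1 ∨ e = 2) :
    e + d2 - d1 + 1 ≤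
      max 0 (6 * q + (2 * (F1 + d1 + d2) + e) - m + 1) + max 0 (q + F1 - m + 1)
          - max 0 (3 * q + (F1 + d1 + d2) - m + 1) - 2 * max 0 (2 * q + (F1 + d1) - m + 1) := by
  rw [max_eq_right (show 0 ≤ 6 * q + (2 * (F1 + d1 + d2) + e) - m + 1 by omega),
      max_eq_right (show 0 ≤ 3 * q + (F1 + d1 + d2) - m + 1 by omega)]
  rcases le_or_gt m (2 * q + (F1 + d1) + 1) with h2 | h2
  · rw [max_eq_right (show 0 ≤ 2 * q + (F1 + d1) - m + 1 by omega)]
    have := le_max_right 0 (q + F1 - m + 1)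
    rcases hm with rfl | rfl <;> linarith
  · rw [max_eq_left (show 2 * q + (F1 + d1) - m + 1 ≤ 0 by omega),
      max_eq_left (show q + F1 - m + 1 ≤ 0 by omega)]
    omega

/-- contribution of the class `r` -/
noncomputable def gfun (G : AddSubmonoid ℕ) (s n p r : ℕ) : ℤ :=
  cls G p r (6 * n) + cls G p r n - cls G p r (3 * n) - 2 * cls G p r (2 * n) - remR G s n p r

theorem sum_gfun (G : AddSubmonoid ℕ) (s n : ℕ) {p : ℕ} (hp : 0 < p) :
    (cnt G (6 * n) + cnt G n - cnt G (3 * n) - 2 * cnt G (2 * n) - remG G s n : ℤ) =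
      ∑ r ∈ Finset.Icc 1 p, gfun G s n p r := by
  rw [cnt_eq_sum G hp, cnt_eq_sum G hp, cnt_eq_sum G hp, cnt_eq_sum G hp, remG_eq_sum G s n hp]
  push_cast
  simp only [gfun, Finset.sum_sub_distrib, Finset.sum_add_distrib, Finset.mul_sum]

theorem gfun_absent {G : AddSubmonoid ℕ} (s n : ℕ) {p r : ℕ} (hp : 0 < p)
    (hr2 : r ≤ p) (h : ∀ i, i * p + r ∉ G) : gfun G s n p r = 0 := by
  have h1 : remR G s n p r = 0 := by
    by_contra hcon
    obtain ⟨i, _, hi, hmod⟩ := remR_pos (Nat.pos_of_ne_zero hcon)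
    have h2 : ∀ m, m * p + r ≤ 2 * n + (2 * i + 1) := fun m =>
      index_le hr2 (fun i _ => h i) hi (by omega) hmod
    have h3 := h2 (2 * n + (2 * i + 1))
    have h4 : (2 * n + (2 * i + 1)) * 1 ≤ (2 * n + (2 * i + 1)) * p :=
      Nat.mul_le_mul_left _ hp
    rcases Nat.eq_zero_or_pos r with h5 | h5
    · have h6 := h2 (2 * n + (2 * i + 1) + 1)
      have h7 : (2 * n + (2 * i + 1) + 1) * 1 ≤ (2 * n + (2 * i + 1) + 1) * p :=
        Nat.mul_le_mul_left _ hp
      omega
    · omega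
  unfold gfun
  rw [cls_absent hr2 h, cls_absent hr2 h, cls_absent hr2 h, cls_absent hr2 h, h1]
  simp

theorem gfun_present {G : AddSubmonoid ℕ} {s n p q ν : ℕ} (hp : 0 < p) (hpG : p ∈ G)
    (hν : ν < p) (hnq : n = q * p + ν) (hn : 2 * s ≤ n + 1) {r : ℕ} (hr1 : 1 ≤ r) (hr2 : r ≤ p)
    {m : ℕ} (hm : m * p + r ∈ G) (hmm : ∀ i, i < m → i * p + r ∉ G) :
      ∃ F1 d1 d2 e : ℤ, psi p ν r = e + d2 - d1 ∧ (F1 = -1 ∨ F1 = 0) ∧ (d1 = 0 ∨ d1 = 1) ∧
        (d2 = 0 ∨ d2 = 1) ∧ (e = 0 ∨ e = 1 ∨ e = 2) ∧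
        gfun G s n p r =
          max 0 (6 * (q : ℤ) + (2 * (F1 + d1 + d2) + e) - m + 1) + max 0 (q + F1 - m + 1)
          - max 0 (3 * q + (F1 + d1 + d2) - m + 1) - 2 * max 0 (2 * q + (F1 + d1) - m + 1)
          - remR G s n p r ∧
        (remR G s n p r = 0 ∨ (m : ℤ) ≤ 3 * q + (F1 + d1 + d2)) ∧
        ((m : ℤ) ≤ 3 * q + (F1 + d1 + d2) ↔ m * p + r ≤ 3 * n) := by
  have hp' : (0 : ℤ) < p := by exact_mod_cast hp
  obtain ⟨F1, d1, d2, e, h0, hF1, hd1, hd2, he, u1, u2, u3, u4, u5, u6, u7, u8⟩ :=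
    psi_floors hp hν hr1 hr2
  have e1 : (((n : ℕ) : ℤ) - r) / p = q + F1 := by
    apply ediv_eq hp'
    · rw [hnq]; push_cast; linarith
    · rw [hnq]; push_cast; linarith
  have e2 : (((2 * n : ℕ) : ℤ) - r) / p = 2 * q + (F1 + d1) := by
    apply ediv_eq hp'
    · rw [hnq]; push_cast; linarith
    · rw [hnq]; push_cast; linarith
  have e3 : (((3 * n : ℕ) : ℤ) - r) / p = 3 * q + (F1 + d1 + d2) := by
    apply ediv_eq hp'
    · rw [hnq]; push_cast; linarith
    · rw [hnq]; push_cast; linarith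
  have e6 : (((6 * n : ℕ) : ℤ) - r) / p = 6 * q + (2 * (F1 + d1 + d2) + e) := by
    apply ediv_eq hp'
    · rw [hnq]; push_cast; linarith
    · rw [hnq]; push_cast; linarith
  have hiff : (m : ℤ) ≤ 3 * q + (F1 + d1 + d2) ↔ m * p + r ≤ 3 * n := by
    rw [← e3, Int.le_ediv_iff_mul_le hp']
    constructor
    · intro h
      have : (m : ℤ) * p + r ≤ ((3 * n : ℕ) : ℤ) := by linarith
      exact_mod_cast this
    · intro h
      have : (m : ℤ) * p + r ≤ ((3 * n : ℕ) : ℤ) := by exact_mod_cast h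
      linarith
  refine ⟨F1, d1, d2, e, h0, hF1, hd1, hd2, he, ?_, ?_, hiff⟩
  · unfold gfun
    rw [cls_formula hpG hp hr1 hr2 hm hmm, cls_formula hpG hp hr1 hr2 hm hmm,
      cls_formula hpG hp hr1 hr2 hm hmm, cls_formula hpG hp hr1 hr2 hm hmm, e1, e2, e3, e6]
  · by_contra hcon
    push Not at hcon
    obtain ⟨hc1, hc2⟩ := hcon
    obtain ⟨i, hi, hiG, hmod⟩ := remR_pos (Nat.pos_of_ne_zero hc1)
    have h1 := index_le hr2 hmm hiG (by omega) hmod
    have h2 : m * p + r ≤ 3 * n := by omega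
    have := hiff.mpr h2
    omega

/-- general lower bound for the contribution of a present class -/
theorem gfun_bound {G : AddSubmonoid ℕ} {s n p q ν : ℕ} (hp : 0 < p) (hpG : p ∈ G)
    (hq : 1 ≤ q) (hν : ν < p) (hnq : n = q * p + ν) (hn : 2 * s ≤ n + 1) {r : ℕ} (hr1 : 1 ≤ r)
    (hr2 : r ≤ p) {m : ℕ} (hm : m * p + r ∈ G) (hmm : ∀ i, i < m → i * p + r ∉ G) :
    (m * p + r ≤ 3 * n ∧
      min (psi p ν r + m - 1) (3 * q - 1) - remR G s n p r ≤ gfun G s n p r) ∨
    (3 * n < m * p + r ∧ 0 ≤ gfun G s n p r) := by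
  obtain ⟨F1, d1, d2, e, h0, hF1, hd1, hd2, he, hg, hr, hiff⟩ :=
    gfun_present hp hpG hν hnq hn hr1 hr2 hm hmm
  rw [hg, h0]
  rcases numG (q := (q : ℤ)) (m := (m : ℤ)) (by omega) (by omega) hF1 hd1 hd2 he with
    ⟨ha, hb⟩ | ⟨ha, hb⟩
  · left
    exact ⟨hiff.mp ha, by linarith⟩
  · right
    constructor
    · by_contra hcon
      have := hiff.mpr (by omega)
      omega
    · rcases hr with hr | hr
      · rw [hr]
        push_cast
        linarith
      · omega

theorem caseB {s n p : ℕ} {G : AddSubmonoid ℕ} (hp : 0 < p) (hpG : p ∈ G)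
    (hmin : ∀ y ∈ G, y ≠ 0 → p ≤ y) (hpn : p ≤ n) (hn : 2 * s ≤ n + 1)
    (hforb : ∀ x, Forb s x → x ∉ G) (row : RowOK s p (n % p)) :
    (0 : ℤ) ≤ cnt G (6 * n) + cnt G n - cnt G (3 * n) - 2 * cnt G (2 * n) - remG G s n := by
  classical
  obtain ⟨q, ν, hq, hν, hnq⟩ : ∃ q ν, 1 ≤ q ∧ ν < p ∧ n = q * p + ν := by
    refine ⟨n / p, n % p, Nat.div_pos hpn hp, Nat.mod_lt _ hp, ?_⟩
    have := Nat.div_add_mod n p
    rw [mul_comm] at this
    exact this.symm
  have hνn : n % p = ν := by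
    rw [hnq, add_comm, Nat.add_mul_mod_self_right, Nat.mod_eq_of_lt hν]
  have hremR := fun r => remR_le G s n p r
  rw [hνn] at row
  simp only [hνn] at hremR
  have hp' : (0 : ℤ) < p := by exact_mod_cast hp
  let A : ℕ → Prop := fun r => 1 ≤ r ∧ r < p ∧ p + r ∈ G
  rw [sum_gfun G s n hp]
  have habs : ∀ r, r ≤ p → (∀ i, i * p + r ∉ G) → gfun G s n p r = 0 :=
    fun r h1 h2 => gfun_absent s n hp h1 h2
  have hpres := fun (r : ℕ) (h1 : 1 ≤ r) (h2 : r ≤ p) (m : ℕ) (h3 : m * p + r ∈ G)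
    (h4 : ∀ i, i < m → i * p + r ∉ G) => gfun_present hp hpG hν hnq hn h1 h2 h3 h4
  -- existence of the minimal index
  have hex : ∀ r, (∃ i, i * p + r ∈ G) → ∃ m, m * p + r ∈ G ∧ ∀ i, i < m → i * p + r ∉ G := by
    intro r h
    exact ⟨Nat.find h, Nat.find_spec h, fun i hi => Nat.find_min h hi⟩
  have hlt : ∀ r, 1 ≤ r → r < p → r ∉ G := by
    intro r h1 h2 h3
    have := hmin r h3 (by omega)
    omega
  apply row A (gfun G s n p)
  · rintro r ⟨h1, h2, h3⟩
    exact ⟨h1, h2, fun h4 => hforb _ h4 h3⟩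
  · -- `m = 1`
    rintro r hr1 hr2 ⟨_, _, hA⟩
    have hm : 1 * p + r ∈ G := by rw [one_mul]; exact hA
    have hmm : ∀ i, i < 1 → i * p + r ∉ G := by
      intro i hi
      have : i = 0 := by omega
      subst this
      rw [zero_mul, zero_add]
      exact hlt r hr1 hr2
    obtain ⟨F1, d1, d2, e, h0, hF1, hd1, hd2, he, hg, _, _⟩ := hpres r hr1 hr2.le 1 hm hmm
    have hle : (remR G s n p r : ℤ) ≤ remc s p ν r := by exact_mod_cast hremR r
    have hn1 := num1 (q := (q : ℤ)) (by omega) hF1 hd1 hd2 he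
    unfold hh
    rw [hg, h0, Nat.cast_one, hn1]
    linarith
  · -- not in `A`
    intro r hr1 hr2 hA hh1 hh2
    by_cases hpr : ∃ i, i * p + r ∈ G
    · obtain ⟨m, hm, hmm⟩ := hex r hpr
      have hm2 : 2 ≤ m := by
        by_contra hcon
        rcases (show m = 0 ∨ m = 1 by omega) with rfl | rfl
        · rw [zero_mul, zero_add] at hm
          exact hlt r hr1 hr2 hm
        · rw [one_mul] at hm
          exact hA ⟨hr1, hr2, hm⟩
      obtain ⟨F1, d1, d2, e, h0, hF1, hd1, hd2, he, hg, hr, _⟩ := hpres r hr1 hr2.le m hm hmm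
      have hle : (remR G s n p r : ℤ) ≤ remc s p ν r := by exact_mod_cast hremR r
      have hle2 : (remc s p ν r : ℤ) ≤ 2 := by exact_mod_cast hh2
      have hm2' : (2 : ℤ) ≤ m := by exact_mod_cast hm2
      unfold hh at hh1
      rw [h0] at hh1
      rw [hg]
      rcases numG (q := (q : ℤ)) (m := (m : ℤ)) (by omega) (by omega) hF1 hd1 hd2 he with
        ⟨_, hb⟩ | ⟨ha, hb⟩
      · have hb2 : (remc s p ν r : ℤ) ≤ min (e + d2 - d1 + m - 1) (3 * q - 1) :=
          le_min (by linarith) (by omega)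
        linarith
      · rcases hr with hr | hr
        · rw [hr]
          push_cast
          linarith
        · omega
    · push Not at hpr
      rw [habs r hr2.le hpr]
  · -- reached classes
    intro r hr1 hr2 hA hreach
    have h3 : ∃ i, i ≤ 3 ∧ i * p + r ∈ G := by
      rcases hreach with ⟨x, y, hx, hy, hxy⟩ | ⟨x, y, z, hx, hy, hz, hxyz⟩
      · have h4 : (p + x) + (p + y) ∈ G := G.add_mem hx.2.2 hy.2.2
        rcases Nat.lt_or_ge (x + y) p with h5 | h5
        · rw [Nat.mod_eq_of_lt h5] at hxy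
          refine ⟨2, by omega, ?_⟩
          have : 2 * p + r = (p + x) + (p + y) := by omega
          rw [this]; exact h4
        · have h6 : (x + y) % p = x + y - p := by
            rw [Nat.mod_eq_sub_mod h5, Nat.mod_eq_of_lt]
            have := hx.2.1
            have := hy.2.1
            omega
          refine ⟨3, by omega, ?_⟩
          have : 3 * p + r = (p + x) + (p + y) := by omega
          rw [this]; exact h4
      · have h4 : (p + x) + (p + y) + (p + z) ∈ G :=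
          G.add_mem (G.add_mem hx.2.2 hy.2.2) hz.2.2
        refine ⟨3, by omega, ?_⟩
        have : 3 * p + r = (p + x) + (p + y) + (p + z) := by omega
        rw [this]; exact h4
    obtain ⟨i, hi3, hiG⟩ := h3
    obtain ⟨m, hm, hmm⟩ := hex r ⟨i, hiG⟩
    have hm3 : m ≤ 3 := by
      by_contra hcon
      exact hmm i (by omega) hiG
    have hm2 : 2 ≤ m := by
      by_contra hcon
      rcases (show m = 0 ∨ m = 1 by omega) with rfl | rfl
      · rw [zero_mul, zero_add] at hm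
        exact hlt r hr1 hr2 hm
      · rw [one_mul] at hm
        exact hA ⟨hr1, hr2, hm⟩
    obtain ⟨F1, d1, d2, e, h0, hF1, hd1, hd2, he, hg, hr, _⟩ := hpres r hr1 hr2.le m hm hmm
    have hle : (remR G s n p r : ℤ) ≤ remc s p ν r := by exact_mod_cast hremR r
    have hb := num23 (q := (q : ℤ)) (m := (m : ℤ)) (by omega) (by omega) hF1 hd1 hd2 he
    unfold hh
    rw [hg, h0]
    linarith
  · -- the class of `p`
    have hm : 0 * p + p ∈ G := by rw [zero_mul, zero_add]; exact hpG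
    obtain ⟨F1, d1, d2, e, h0, hF1, hd1, hd2, he, hg, _, _⟩ :=
      hpres p hp le_rfl 0 hm (fun i hi => absurd hi (Nat.not_lt_zero i))
    have hle : (remR G s n p p : ℤ) ≤ remc s p ν p := by exact_mod_cast hremR p
    have hn1 := num0 (q := (q : ℤ)) (by omega) hF1 hd1 hd2 he
    unfold hh
    rw [hg, h0, Nat.cast_zero, hn1]
    linarith

/-- the special modulus `2` with `s = 4` -/
theorem caseB_two {n : ℕ} {G : AddSubmonoid ℕ} (hpG : 2 ∈ G) (hn : 7 ≤ n)
    (hforb : ∀ x, Forb 4 x → x ∉ G) :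
    (0 : ℤ) ≤ cnt G (6 * n) + cnt G n - cnt G (3 * n) - 2 * cnt G (2 * n) - remG G 4 n := by
  classical
  obtain ⟨q, ν, hq, hν, hnq⟩ : ∃ q ν, 3 ≤ q ∧ ν < 2 ∧ n = q * 2 + ν :=
    ⟨n / 2, n % 2, by omega, by omega, by omega⟩
  rw [sum_gfun G 4 n (show 0 < 2 by norm_num)]
  have e2 : Finset.Icc 1 2 = {1, 2} := rfl
  rw [e2, Finset.sum_pair (by norm_num)]
  have c2 : 0 ≤ gfun G 4 n 2 2 := by
    have h := gfun_bound (s := 4) (r := 2) (m := 0) (by norm_num) hpG (by omega) hν hnq (by omega)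
      (by norm_num) le_rfl (by simpa using hpG) (fun i hi => absurd hi (Nat.not_lt_zero i))
    rcases h with ⟨_, h⟩ | ⟨_, h⟩
    · have h1 : remR G 4 n 2 2 = 0 := by
        by_contra hcon
        obtain ⟨i, _, _, hmod⟩ := remR_pos (Nat.pos_of_ne_zero hcon)
        omega
      have h2 : psi 2 ν 2 = 1 := by
        rcases (show ν = 0 ∨ ν = 1 by omega) with rfl | rfl <;> decide
      rw [h1, h2] at h
      have h3 : (0 : ℤ) ≤ min (1 + ((0 : ℕ) : ℤ) - 1) (3 * q - 1) := le_min (by norm_num) (by omega)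
      push_cast at h h3
      linarith
    · exact h
  have c1 : 0 ≤ gfun G 4 n 2 1 := by
    by_cases hpr : ∃ i, i * 2 + 1 ∈ G
    · have hm : Nat.find hpr * 2 + 1 ∈ G := Nat.find_spec hpr
      have hmm : ∀ i, i < Nat.find hpr → i * 2 + 1 ∉ G := fun i hi => Nat.find_min hpr hi
      have hm4 : 4 ≤ Nat.find hpr := by
        by_contra hcon
        exact hforb _ ⟨Nat.find hpr, by omega, by ring⟩ hm
      have h := gfun_bound (s := 4) (r := 1) (by norm_num) hpG (by omega) hν hnq (by omega)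
        (by norm_num) (by norm_num) hm hmm
      rcases h with ⟨_, h⟩ | ⟨_, h⟩
      · have h1 : remR G 4 n 2 1 ≤ 4 := by
          unfold remR
          refine (Finset.card_filter_le _ _).trans ?_
          rw [Finset.card_range]
        have h2 : psi 2 ν 1 = 1 := by
          rcases (show ν = 0 ∨ ν = 1 by omega) with rfl | rfl <;> decide
        rw [h2] at h
        have h3 : (4 : ℤ) ≤ min (1 + ((Nat.find hpr : ℕ) : ℤ) - 1) (3 * q - 1) :=
          le_min (by omega) (by omega)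
        have h4 : (remR G 4 n 2 1 : ℤ) ≤ 4 := by exact_mod_cast h1
        linarith
      · exact h
    · push Not at hpr
      rw [gfun_absent 4 n (by norm_num) (by norm_num) hpr]
  linarith

/-- the special modulus `4` with remainder `3` and `s = 4` -/
theorem caseB_four {n : ℕ} {G : AddSubmonoid ℕ} (hpG : 4 ∈ G) (hn : 7 ≤ n) (h43 : n % 4 = 3)
    (hmin : ∀ y ∈ G, y ≠ 0 → 4 ≤ y) (hforb : ∀ x, Forb 4 x → x ∉ G) :
    (0 : ℤ) ≤ cnt G (6 * n) + cnt G n - cnt G (3 * n) - 2 * cnt G (2 * n) - remG G 4 n := by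
  classical
  obtain ⟨q, hq, hnq⟩ : ∃ q, 1 ≤ q ∧ n = q * 4 + 3 := ⟨n / 4, by omega, by omega⟩
  rw [sum_gfun G 4 n (show 0 < 4 by norm_num)]
  have e2 : Finset.Icc 1 4 = {1, 2, 3, 4} := rfl
  rw [e2, Finset.sum_insert (by simp), Finset.sum_insert (by simp), Finset.sum_pair (by norm_num)]
  have even0 : ∀ r, r % 2 = 0 → remR G 4 n 4 r = 0 := by
    intro r hr
    by_contra hcon
    obtain ⟨i, _, _, hmod⟩ := remR_pos (Nat.pos_of_ne_zero hcon)
    omega
  have c4 : 0 ≤ gfun G 4 n 4 4 := by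
    have h := gfun_bound (s := 4) (r := 4) (m := 0) (ν := 3) (by norm_num) hpG hq (by norm_num)
      hnq (by omega)
      (by norm_num) le_rfl (by simpa using hpG) (fun i hi => absurd hi (Nat.not_lt_zero i))
    rcases h with ⟨_, h⟩ | ⟨_, h⟩
    · have h2 : psi 4 3 4 = 1 := by decide
      rw [even0 4 rfl, h2] at h
      have h3 : (0 : ℤ) ≤ min (1 + ((0 : ℕ) : ℤ) - 1) (3 * q - 1) := le_min (by norm_num) (by omega)
      push_cast at h h3
      linarith
    · exact h
  have c3 : 0 ≤ gfun G 4 n 4 3 := by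
    by_cases hpr : ∃ i, i * 4 + 3 ∈ G
    · have hm : Nat.find hpr * 4 + 3 ∈ G := Nat.find_spec hpr
      have hmm : ∀ i, i < Nat.find hpr → i * 4 + 3 ∉ G := fun i hi => Nat.find_min hpr hi
      have hm2 : 2 ≤ Nat.find hpr := by
        by_contra hcon
        exact hforb _ ⟨Nat.find hpr * 2 + 1, by omega, by ring⟩ hm
      have h := gfun_bound (s := 4) (r := 3) (ν := 3) (by norm_num) hpG hq (by norm_num) hnq
        (by omega) (by norm_num) (by norm_num) hm hmm
      rcases h with ⟨_, h⟩ | ⟨_, h⟩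
      · have h1 : remR G 4 n 4 3 ≤ 2 := (remR_le G 4 n 4 3).trans (by rw [h43]; decide)
        have h2 : psi 4 3 3 = 2 := by decide
        rw [h2] at h
        have h3 : (2 : ℤ) ≤ min (2 + ((Nat.find hpr : ℕ) : ℤ) - 1) (3 * q - 1) :=
          le_min (by omega) (by omega)
        have h4 : (remR G 4 n 4 3 : ℤ) ≤ 2 := by exact_mod_cast h1
        linarith
      · exact h
    · push Not at hpr
      rw [gfun_absent 4 n (by norm_num) (by norm_num) hpr]
  -- the class of `2`
  have c2 : 0 ≤ gfun G 4 n 4 2 ∧ (9 ∈ G → 1 ≤ gfun G 4 n 4 2) := by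
    by_cases hpr : ∃ i, i * 4 + 2 ∈ G
    · have hm : Nat.find hpr * 4 + 2 ∈ G := Nat.find_spec hpr
      have hmm : ∀ i, i < Nat.find hpr → i * 4 + 2 ∉ G := fun i hi => Nat.find_min hpr hi
      have hm1 : 1 ≤ Nat.find hpr := by
        by_contra hcon
        have h0 : Nat.find hpr = 0 := by omega
        rw [h0] at hm
        have := hmin _ hm (by norm_num)
        omega
      have h := gfun_bound (s := 4) (r := 2) (ν := 3) (by norm_num) hpG hq (by norm_num) hnq
        (by omega) (by norm_num) (by norm_num) hm hmm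
      have h2 : psi 4 3 2 = 1 := by decide
      rw [h2, even0 2 rfl] at h
      have h3 : (1 : ℤ) ≤ min (1 + ((Nat.find hpr : ℕ) : ℤ) - 1) (3 * q - 1) :=
        le_min (by omega) (by omega)
      rcases h with ⟨_, h⟩ | ⟨ha, h⟩
      · push_cast at h
        have h5 : 1 ≤ gfun G 4 n 4 2 := by linarith
        exact ⟨by linarith, fun _ => h5⟩
      · refine ⟨h, fun h9 => ?_⟩
        exfalso
        have h18 : 4 * 4 + 2 ∈ G := by
          have := G.add_mem h9 h9
          simpa using this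
        have : Nat.find hpr ≤ 4 := Nat.find_min' hpr h18
        omega
    · push Not at hpr
      rw [gfun_absent 4 n (by norm_num) (by norm_num) hpr]
      refine ⟨le_rfl, fun h9 => ?_⟩
      exfalso
      apply hpr 4
      have := G.add_mem h9 h9
      simpa using this
  have c1 : -1 ≤ gfun G 4 n 4 1 ∧ (9 ∉ G → 0 ≤ gfun G 4 n 4 1) := by
    by_cases hpr : ∃ i, i * 4 + 1 ∈ G
    · have hm : Nat.find hpr * 4 + 1 ∈ G := Nat.find_spec hpr
      have hmm : ∀ i, i < Nat.find hpr → i * 4 + 1 ∉ G := fun i hi => Nat.find_min hpr hi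
      have hm2 : 2 ≤ Nat.find hpr := by
        by_contra hcon
        exact hforb _ ⟨Nat.find hpr * 2, by omega, by ring⟩ hm
      have h := gfun_bound (s := 4) (r := 1) (ν := 3) (by norm_num) hpG hq (by norm_num) hnq
        (by omega) (by norm_num) (by norm_num) hm hmm
      rcases h with ⟨_, h⟩ | ⟨_, h⟩
      · have h1 : remR G 4 n 4 1 ≤ 2 := (remR_le G 4 n 4 1).trans (by rw [h43]; decide)
        have h2 : psi 4 3 1 = 0 := by decide
        rw [h2] at h
        have h4 : (remR G 4 n 4 1 : ℤ) ≤ 2 := by exact_mod_cast h1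
        constructor
        · have h3 : (1 : ℤ) ≤ min (0 + ((Nat.find hpr : ℕ) : ℤ) - 1) (3 * q - 1) :=
            le_min (by omega) (by omega)
          linarith
        · intro h9
          have hm3 : 3 ≤ Nat.find hpr := by
            by_contra hcon
            have h5 : Nat.find hpr = 2 := by omega
            rw [h5] at hm
            exact h9 (by simpa using hm)
          have h3 : (2 : ℤ) ≤ min (0 + ((Nat.find hpr : ℕ) : ℤ) - 1) (3 * q - 1) :=
            le_min (by omega) (by omega)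
          linarith
      · exact ⟨by linarith, fun _ => h⟩
    · push Not at hpr
      rw [gfun_absent 4 n (by norm_num) (by norm_num) hpr]
      exact ⟨by norm_num, fun _ => le_rfl⟩
  by_cases h9 : 9 ∈ G
  · have := c2.2 h9
    linarith [c1.1]
  · have := c1.2 h9
    linarith [c2.1]

end Pool.Agent.Lib.MP_472c23_co
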