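import Mathlib

/-!
# Counting elements of additive submonoids of `ℕ` in residue classes
-/

set_option autoImplicit false

namespace Pool.Agent.Lib.MP_472c23_co

open Classical in
/-- number of elements of `G` in `[1, x]` -/
noncomputable def cnt (G : AddSubmonoid ℕ) (x : ℕ) : ℕ :=
  ((Finset.Icc 1 x).filter (fun y => y ∈ G)).card

open Classical in
/-- number of elements of `G` in `[1, x]` congruent to `r` modulo `p` -/
noncomputable def cls (G : AddSubmonoid ℕ) (p r x : ℕ) : ℕ :=
  ((Finset.Icc 1 x).filter (fun y => y ∈ G ∧ y % p = r % p)).card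

theorem cnt_eq_sum (G : AddSubmonoid ℕ) {p : ℕ} (hp : 0 < p) (x : ℕ) :
    cnt G x = ∑ r ∈ Finset.Icc 1 p, cls G p r x := by
  classical
  unfold cnt cls
  have hmaps : ∀ y ∈ (Finset.Icc 1 x).filter (fun y => y ∈ G),
      (if y % p = 0 then p else y % p) ∈ Finset.Icc 1 p := by
    intro y _
    have := Nat.mod_lt y hp
    rw [Finset.mem_Icc]
    split_ifs <;> omega
  rw [Finset.card_eq_sum_card_fiberwise hmaps]
  refine Finset.sum_congr rfl fun r hr => ?_
  rw [Finset.filter_filter]
  congr 1
  refine Finset.filter_congr fun y _ => ?_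
  rw [Finset.mem_Icc] at hr
  refine and_congr_right fun _ => ?_
  have h1 := Nat.mod_lt y hp
  rcases Nat.lt_or_ge r p with h | h
  · rw [Nat.mod_eq_of_lt h]
    split_ifs <;> omega
  · have : r = p := by omega
    subst this
    rw [Nat.mod_self]
    split_ifs <;> omega

theorem cls_absent {G : AddSubmonoid ℕ} {p r : ℕ} (hrp : r ≤ p)
    (h : ∀ i, i * p + r ∉ G) (x : ℕ) : cls G p r x = 0 := by
  classical
  unfold cls
  rw [Finset.card_eq_zero, Finset.filter_eq_empty_iff]
  rintro y hy ⟨hyG, hmod⟩
  rw [Finset.mem_Icc] at hy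
  -- `y = i * p + r`
  have hle : r ≤ y := by
    rcases Nat.lt_or_ge r p with h1 | h1
    · rw [Nat.mod_eq_of_lt h1] at hmod
      rw [← hmod]
      exact Nat.mod_le _ _
    · have : r = p := by omega
      subst this
      rw [Nat.mod_self] at hmod
      exact Nat.le_of_dvd (by omega) (Nat.dvd_of_mod_eq_zero hmod)
  obtain ⟨i, hi⟩ : p ∣ y - r := (Nat.modEq_iff_dvd' hle).mp hmod.symm
  apply h i
  have : i * p + r = y := by rw [mul_comm]; omega
  rw [this]
  exact hyG

theorem cls_formula {G : AddSubmonoid ℕ} {p r m : ℕ} (hpG : p ∈ G) (hp : 0 < p) (hr1 : 1 ≤ r)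
    (hrp : r ≤ p) (hm : m * p + r ∈ G) (hmin : ∀ i, i < m → i * p + r ∉ G) (x : ℕ) :
    (cls G p r x : ℤ) = max 0 (((x : ℤ) - r) / p - m + 1) := by
  classical
  have hle : ∀ y : ℕ, 1 ≤ y → y % p = r % p → r ≤ y := by
    intro y hy hmod
    rcases Nat.lt_or_ge r p with h1 | h1
    · rw [Nat.mod_eq_of_lt h1] at hmod
      rw [← hmod]
      exact Nat.mod_le _ _
    · have : r = p := by omega
      subst this
      rw [Nat.mod_self] at hmod
      exact Nat.le_of_dvd (by omega) (Nat.dvd_of_mod_eq_zero hmod)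
  have hmem : ∀ i, i * p + r ∈ G ↔ m ≤ i := by
    intro i
    constructor
    · intro h
      by_contra hcon
      exact hmin i (by omega) h
    · intro h
      obtain ⟨j, rfl⟩ := Nat.exists_eq_add_of_le h
      have : (m + j) * p + r = (m * p + r) + j * p := by ring
      rw [this]
      exact G.add_mem hm (by simpa using G.nsmul_mem hpG j)
  rcases Nat.lt_or_ge x r with hx | hx
  · have h0 : cls G p r x = 0 := by
      unfold cls
      rw [Finset.card_eq_zero, Finset.filter_eq_empty_iff]
      rintro y hy ⟨_, hmod⟩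
      rw [Finset.mem_Icc] at hy
      have := hle y hy.1 hmod
      omega
    rw [h0]
    have h1 : ((x : ℤ) - r) / p < 0 := Int.ediv_neg_of_neg_of_pos (by omega) (by omega)
    rw [max_eq_left]
    · rfl
    · omega
  · have h0 : (Finset.Icc 1 x).filter (fun y => y ∈ G ∧ y % p = r % p) =
        (Finset.Icc m ((x - r) / p)).image (fun i => i * p + r) := by
      ext y
      rw [Finset.mem_filter, Finset.mem_Icc, Finset.mem_image]
      constructor
      · rintro ⟨⟨hy1, hy2⟩, hyG, hmod⟩
        have hry := hle y hy1 hmod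
        obtain ⟨i, hi⟩ : p ∣ y - r := (Nat.modEq_iff_dvd' hry).mp hmod.symm
        have hiy : i * p + r = y := by rw [mul_comm]; omega
        refine ⟨i, ?_, hiy⟩
        rw [Finset.mem_Icc]
        constructor
        · rw [← hmem, hiy]; exact hyG
        · rw [Nat.le_div_iff_mul_le hp]; omega
      · rintro ⟨i, hi, rfl⟩
        rw [Finset.mem_Icc] at hi
        have h1 := (Nat.le_div_iff_mul_le hp).mp hi.2
        refine ⟨⟨by omega, by omega⟩, (hmem i).mpr hi.1, ?_⟩
        rw [add_comm, Nat.add_mul_mod_self_right]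
    unfold cls
    rw [h0, Finset.card_image_of_injective, Nat.card_Icc]
    · have h1 : ((x : ℤ) - r) / p = (((x - r) / p : ℕ) : ℤ) := by
        rw [Int.natCast_div, Nat.cast_sub hx]
      rw [h1]
      omega
    · intro i j hij
      have : i * p = j * p := by simpa using hij
      exact Nat.eq_of_mul_eq_mul_right hp this

end Pool.Agent.Lib.MP_472c23_co
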