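import Mathlib

/-!
# Definitions for problem MP_472c23_co

The `q`-factorial ratios `P_{1,n}, …, P_{5,n}` as elements of the field of rational functions
`ℚ(q)`; the variable `q` is `RatFunc.X`.
-/

set_option autoImplicit false

namespace Pool.Agent.Lib.MP_472c23_co

open Polynomial

/-- `[m]! = (1 - q) (1 - q ^ 2) ⋯ (1 - q ^ m)` -/
noncomputable def qfact (m : ℕ) : RatFunc ℚ := ∏ i ∈ Finset.Icc 1 m, (1 - RatFunc.X ^ i)

/-- `F_n = [6n]! [n]! / ([3n]! [2n]! ^ 2)` -/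
noncomputable def F (n : ℕ) : RatFunc ℚ :=
  qfact (6 * n) * qfact n / (qfact (3 * n) * qfact (2 * n) ^ 2)

/-- `1 - q ^ m` -/
noncomputable def u (m : ℕ) : RatFunc ℚ := 1 - RatFunc.X ^ m

/-- `P_{1,n}` -/
noncomputable def P1 (n : ℕ) : RatFunc ℚ := u 1 / u (2 * n + 1) * F n

/-- `P_{2,n}` -/
noncomputable def P2 (n : ℕ) : RatFunc ℚ := u 3 / u (2 * n + 3) * F n

/-- `P_{3,n}` -/
noncomputable def P3 (n : ℕ) : RatFunc ℚ := (u 1 * u 3) / (u (2 * n + 1) * u (2 * n + 3)) * F n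

/-- `P_{4,n}` -/
noncomputable def P4 (n : ℕ) : RatFunc ℚ :=
  (u 3 * u 5 * u 7) / (u (2 * n + 3) * u (2 * n + 5) * u (2 * n + 7)) * F n

/-- `P_{5,n}` -/
noncomputable def P5 (n : ℕ) : RatFunc ℚ :=
  (u 3 ^ 2 * u 5 * u 7) / (u (2 * n + 1) * u (2 * n + 3) * u (2 * n + 5) * u (2 * n + 7)) * F n

/-- `f` is a polynomial in `q` -/
def IsPoly (f : RatFunc ℚ) : Prop := ∃ P : ℚ[X], f = algebraMap ℚ[X] (RatFunc ℚ) P

/-- `f` is a polynomial in `q` with non-negative integer coefficients -/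
def IsNonnegIntPoly (f : RatFunc ℚ) : Prop :=
  ∃ P : ℕ[X], f = algebraMap ℚ[X] (RatFunc ℚ) (P.map (Nat.castRingHom ℚ))

end Pool.Agent.Lib.MP_472c23_co
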