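import Pool.Agent.Lib.MP_472c23_co.Row

/-!
# The local inequality for large moduli
-/

set_option autoImplicit false

namespace Pool.Agent.Lib.MP_472c23_co

/-- the floors that occur in `psi` -/
theorem psi_floors {p ν r : ℕ} (hp : 0 < p) (hν : ν < p) (h1 : 1 ≤ r) (h2 : r ≤ p) :
    ∃ F1 d1 d2 e : ℤ, psi p ν r = e + d2 - d1 ∧ (F1 = -1 ∨ F1 = 0) ∧ (d1 = 0 ∨ d1 = 1) ∧
      (d2 = 0 ∨ d2 = 1) ∧ (e = 0 ∨ e = 1 ∨ e = 2) ∧
      (p : ℤ) * F1 ≤ ν - r ∧ (ν : ℤ) - r < p * F1 + p ∧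
      (p : ℤ) * (F1 + d1) ≤ 2 * ν - r ∧ 2 * (ν : ℤ) - r < p * (F1 + d1) + p ∧
      (p : ℤ) * (F1 + d1 + d2) ≤ 3 * ν - r ∧ 3 * (ν : ℤ) - r < p * (F1 + d1 + d2) + p ∧
      (p : ℤ) * (2 * (F1 + d1 + d2) + e) ≤ 6 * ν - r ∧
      6 * (ν : ℤ) - r < p * (2 * (F1 + d1 + d2) + e) + p := by
  have hp' : (0 : ℤ) < p := by exact_mod_cast hp
  have b1 : ∀ x : ℤ, (p : ℤ) * (x / p) ≤ x := fun x => Int.mul_ediv_self_le hp'.ne'
  have b2 : ∀ x : ℤ, x < (p : ℤ) * (x / p) + p := fun x => Int.lt_mul_ediv_self_add hp'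
  unfold psi
  obtain ⟨F1, hF1⟩ : ∃ F, F = ((ν : ℤ) - r) / p := ⟨_, rfl⟩
  obtain ⟨F2, hF2⟩ : ∃ F, F = (2 * (ν : ℤ) - r) / p := ⟨_, rfl⟩
  obtain ⟨F3, hF3⟩ : ∃ F, F = (3 * (ν : ℤ) - r) / p := ⟨_, rfl⟩
  obtain ⟨F6, hF6⟩ : ∃ F, F = (6 * (ν : ℤ) - r) / p := ⟨_, rfl⟩
  have u1 := b1 ((ν : ℤ) - r)
  have u2 := b2 ((ν : ℤ) - r)
  have u3 := b1 (2 * (ν : ℤ) - r)
  have u4 := b2 (2 * (ν : ℤ) - r)
  have u5 := b1 (3 * (ν : ℤ) - r)
  have u6 := b2 (3 * (ν : ℤ) - r)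
  have u7 := b1 (6 * (ν : ℤ) - r)
  have u8 := b2 (6 * (ν : ℤ) - r)
  rw [← hF1] at u1 u2 ⊢
  rw [← hF2] at u3 u4 ⊢
  rw [← hF3] at u5 u6 ⊢
  rw [← hF6] at u7 u8 ⊢
  have key : ∀ a b : ℤ, (p : ℤ) * a < p * b → a < b := fun a b h => lt_of_mul_lt_mul_left h hp'.le
  have k1 : -2 < F1 := key _ _ (by nlinarith)
  have k2 : F1 < 1 := key _ _ (by nlinarith)
  have k3 : F1 - 1 < F2 := key _ _ (by nlinarith)
  have k4 : F2 < F1 + 2 := key _ _ (by nlinarith)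
  have k5 : F2 - 1 < F3 := key _ _ (by nlinarith)
  have k6 : F3 < F2 + 2 := key _ _ (by nlinarith)
  have k7 : 2 * F3 - 1 < F6 := key _ _ (by nlinarith)
  have k8 : F6 < 2 * F3 + 3 := key _ _ (by nlinarith)
  refine ⟨F1, F2 - F1, F3 - F2, F6 - 2 * F3, by ring, by omega, by omega, by omega, by omega,
    u1, u2, ?_, ?_, ?_, ?_, ?_, ?_⟩
  · rw [show F1 + (F2 - F1) = F2 by ring]; exact u3
  · rw [show F1 + (F2 - F1) = F2 by ring]; exact u4
  · rw [show F1 + (F2 - F1) + (F3 - F2) = F3 by ring]; exact u5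
  · rw [show F1 + (F2 - F1) + (F3 - F2) = F3 by ring]; exact u6
  · rw [show 2 * (F1 + (F2 - F1) + (F3 - F2)) + (F6 - 2 * F3) = F6 by ring]; exact u7
  · rw [show 2 * (F1 + (F2 - F1) + (F3 - F2)) + (F6 - 2 * F3) = F6 by ring]; exact u8

theorem psi_ge {p ν r : ℕ} (hp : 0 < p) (hν : ν < p) (h1 : 1 ≤ r) (h2 : r ≤ p) :
    -1 ≤ psi p ν r := by
  obtain ⟨F1, d1, d2, e, h, _, hd1, hd2, he, _⟩ := psi_floors hp hν h1 h2
  rw [h]
  omega

theorem psi_neg {p ν r : ℕ} (hp : 0 < p) (hν : ν < p) (h1 : 1 ≤ r) (h2 : r ≤ p)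
    (h : psi p ν r < 0) : ν < r ∧ r ≤ 2 * ν ∧ 4 * ν < p := by
  obtain ⟨F1, d1, d2, e, h0, hF1, hd1, hd2, he, u1, u2, u3, u4, u5, u6, u7, u8⟩ :=
    psi_floors hp hν h1 h2
  rw [h0] at h
  have e1 : d1 = 1 := by omega
  have e2 : d2 = 0 := by omega
  have e3 : e = 0 := by omega
  subst e1 e2 e3
  rcases hF1 with rfl | rfl <;> omega

theorem psi_dbl {p ν r : ℕ} (hp : 0 < p) (hν : ν < p) (h1 : ν < r) (h2 : r ≤ 2 * ν)
    (h3 : 4 * ν < p) : 1 ≤ psi p ν (2 * r) := by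
  obtain ⟨F1, d1, d2, e, h0, hF1, hd1, hd2, he, u1, u2, u3, u4, u5, u6, u7, u8⟩ :=
    psi_floors hp hν (r := 2 * r) (by omega) (by omega)
  rw [h0]
  push_cast at *
  rcases hF1 with rfl | rfl <;> rcases hd1 with rfl | rfl <;> rcases hd2 with rfl | rfl <;>
    rcases he with rfl | rfl | rfl <;> omega

theorem psi_self {p ν : ℕ} (hp : 0 < p) (hν : ν < p) : 1 ≤ psi p ν p := by
  obtain ⟨F1, d1, d2, e, h0, hF1, hd1, hd2, he, u1, u2, u3, u4, u5, u6, u7, u8⟩ :=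
    psi_floors hp hν (r := p) (by omega) le_rfl
  rw [h0]
  rcases hF1 with rfl | rfl <;> rcases hd1 with rfl | rfl <;> rcases hd2 with rfl | rfl <;>
    rcases he with rfl | rfl | rfl <;> omega

theorem psi_self2 {p ν c k : ℕ} (hp : 11 ≤ p) (hν : ν < p) (hc : c ≤ 7) (hc2 : c % 2 = 1)
    (hk : k ≤ 2) (h : 2 * ν + c = p + k * p) : 2 ≤ psi p ν p := by
  obtain ⟨F1, d1, d2, e, h0, hF1, hd1, hd2, he, u1, u2, u3, u4, u5, u6, u7, u8⟩ :=
    psi_floors (by omega) hν (r := p) (by omega) le_rfl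
  rw [h0]
  rcases (show k = 0 ∨ k = 1 ∨ k = 2 by omega) with rfl | rfl | rfl <;>
  rcases hF1 with rfl | rfl <;> rcases hd1 with rfl | rfl <;> rcases hd2 with rfl | rfl <;>
    rcases he with rfl | rfl | rfl <;> omega

theorem psi_rc {p ν r c k : ℕ} (hp : 19 ≤ p) (hν : ν < p) (h1 : 1 ≤ r) (h2 : r < p)
    (hc : c ≤ 7) (hc2 : c % 2 = 1) (hk : k ≤ 2) (h : 2 * ν + c = r + k * p) :
    1 ≤ psi p ν r := by
  obtain ⟨F1, d1, d2, e, h0, hF1, hd1, hd2, he, u1, u2, u3, u4, u5, u6, u7, u8⟩ :=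
    psi_floors (by omega) hν h1 h2.le
  rw [h0]
  rcases (show k = 0 ∨ k = 1 ∨ k = 2 by omega) with rfl | rfl | rfl <;>
  rcases hF1 with rfl | rfl <;> rcases hd1 with rfl | rfl <;> rcases hd2 with rfl | rfl <;>
    rcases he with rfl | rfl | rfl <;> omega

/-- unfolding a congruence -/
theorem exists_mul_of_mod {p ν r c : ℕ} (hp : 8 ≤ p) (hν : ν < p) (h1 : 1 ≤ r) (h2 : r ≤ p)
    (hc : c ≤ 7) (hc1 : 1 ≤ c) (h : (2 * ν + c) % p = r % p) :
    ∃ k, k ≤ 2 ∧ 2 * ν + c = r + k * p := by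
  have hle : r ≤ 2 * ν + c := by
    rcases Nat.lt_or_ge r p with h3 | h3
    · rw [Nat.mod_eq_of_lt h3] at h
      rw [← h]
      exact Nat.mod_le _ _
    · have : r = p := by omega
      subst this
      rw [Nat.mod_self] at h
      exact Nat.le_of_dvd (by omega) (Nat.dvd_of_mod_eq_zero h)
  obtain ⟨k, hk⟩ : p ∣ 2 * ν + c - r := (Nat.modEq_iff_dvd' hle).mp h.symm
  refine ⟨k, ?_, by have := Nat.mul_comm k p; omega⟩
  by_contra hcon
  push Not at hcon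
  have : p * 3 ≤ p * k := Nat.mul_le_mul_left _ hcon
  omega

theorem remc_le_one {p ν r : ℕ} (hp : 8 ≤ p) : remc 4 p ν r ≤ 1 := by
  unfold remc
  have key : ∀ a b : ℕ, a < b → b ≤ a + 6 → (2 * ν + a) % p = r % p →
      (2 * ν + b) % p = r % p → False := by
    intro a b hab hb h1 h2
    have h3 : (2 * ν + a) % p = (2 * ν + b) % p := h1.trans h2.symm
    obtain ⟨k, hk⟩ : p ∣ (2 * ν + b) - (2 * ν + a) :=
      (Nat.modEq_iff_dvd' (by omega)).mp h3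
    rcases Nat.eq_zero_or_pos k with rfl | hk0
    · omega
    · have : p * 1 ≤ p * k := Nat.mul_le_mul_left _ hk0
      omega
  have e : List.range 4 = [0, 1, 2, 3] := rfl
  rw [e]
  simp only [List.countP_cons, List.countP_nil, beq_iff_eq]
  have k01 := key 1 3 (by omega) (by omega)
  have k02 := key 1 5 (by omega) (by omega)
  have k03 := key 1 7 (by omega) (by omega)
  have k12 := key 3 5 (by omega) (by omega)
  have k13 := key 3 7 (by omega) (by omega)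
  have k23 := key 5 7 (by omega) (by omega)
  norm_num at *
  split_ifs <;> omega

theorem remc_pos {s p ν r : ℕ} (h : 0 < remc s p ν r) :
    ∃ i, i < s ∧ (2 * ν + (2 * i + 1)) % p = r % p := by
  unfold remc at h
  rw [List.countP_pos_iff] at h
  obtain ⟨i, hi, h⟩ := h
  exact ⟨i, List.mem_range.mp hi, by simpa using h⟩

theorem rowOK_large {p ν : ℕ} (hp : 19 ≤ p) (hν : ν < p) : RowOK 4 p ν := by
  classical
  intro A g hA h1 h2 h3 h4
  -- facts on `hh`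
  have f1 : ∀ r, 1 ≤ r → r < p → hh 4 p ν r < 0 →
      hh 4 p ν r = -1 ∧ ν < r ∧ r ≤ 2 * ν ∧ 4 * ν < p := by
    intro r hr1 hr2 hneg
    have hge := psi_ge (by omega : 0 < p) hν hr1 hr2.le
    have hrem : remc 4 p ν r = 0 := by
      by_contra hcon
      have hle := remc_le_one (p := p) (ν := ν) (r := r) (by omega)
      obtain ⟨i, hi, hmod⟩ := remc_pos (Nat.pos_of_ne_zero hcon)
      obtain ⟨k, hk, hk2⟩ := exists_mul_of_mod (by omega) hν hr1 hr2.le (by omega) (by omega) hmod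
      have := psi_rc hp hν hr1 hr2 (by omega) (by omega) hk hk2
      unfold hh at hneg
      omega
    unfold hh at hneg ⊢
    rw [hrem] at hneg ⊢
    have h5 := psi_neg (by omega : 0 < p) hν hr1 hr2.le (by omega)
    refine ⟨by omega, h5⟩
  have f2 : ∀ r, ν < r → r ≤ 2 * ν → 4 * ν < p → 1 ≤ hh 4 p ν (2 * r) := by
    intro r hr1 hr2 hr3
    have h5 := psi_dbl (by omega : 0 < p) hν hr1 hr2 hr3
    have hrem : remc 4 p ν (2 * r) = 0 := by
      by_contra hcon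
      obtain ⟨i, hi, hmod⟩ := remc_pos (Nat.pos_of_ne_zero hcon)
      obtain ⟨k, hk, hk2⟩ := exists_mul_of_mod (by omega) hν (by omega) (by omega) (by omega)
        (by omega) hmod
      rcases (show k = 0 ∨ k = 1 ∨ k = 2 by omega) with rfl | rfl | rfl <;> omega
    unfold hh
    rw [hrem]
    omega
  have f3 : 0 ≤ hh 4 p ν p - 1 := by
    have hle := remc_le_one (p := p) (ν := ν) (r := p) (by omega)
    unfold hh
    rcases Nat.eq_zero_or_pos (remc 4 p ν p) with h0 | h0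
    · have := psi_self (by omega : 0 < p) hν
      omega
    · obtain ⟨i, hi, hmod⟩ := remc_pos h0
      obtain ⟨k, hk, hk2⟩ := exists_mul_of_mod (by omega) hν (by omega) le_rfl (by omega)
        (by omega) hmod
      have := psi_self2 (by omega) hν (by omega) (by omega) hk hk2
      omega
  have f4 : ∀ r, 1 ≤ r → r < p → -1 ≤ hh 4 p ν r := by
    intro r hr1 hr2
    by_contra hcon
    have := (f1 r hr1 hr2 (by omega)).1
    omega
  let V : Finset ℕ := (Finset.Ico 1 p).filter fun r => A r ∧ hh 4 p ν r < 0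
  have hV : ∀ r, r ∈ V ↔ (1 ≤ r ∧ r < p) ∧ A r ∧ hh 4 p ν r < 0 := by
    intro r
    rw [Finset.mem_filter, Finset.mem_Ico]
  let D : Finset ℕ := V.image fun r => 2 * r
  have hD : ∀ r, r ∈ D → ∃ v ∈ V, r = 2 * v ∧ ν < v ∧ v ≤ 2 * ν ∧ 4 * ν < p := by
    intro r hr
    rw [Finset.mem_image] at hr
    obtain ⟨v, hv, rfl⟩ := hr
    have h5 := (hV v).mp hv
    exact ⟨v, hv, rfl, (f1 v h5.1.1 h5.1.2 h5.2.2).2⟩
  have hdisj : Disjoint V D := by
    rw [Finset.disjoint_left]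
    intro r hr1 hr2
    obtain ⟨v, hv, rfl, hv1, hv2, hv3⟩ := hD r hr2
    have h5 := f2 v hv1 hv2 hv3
    have h6 := ((hV _).mp hr1).2.2
    omega
  have hgD : ∀ r ∈ D, 1 ≤ g r := by
    intro r hr
    obtain ⟨v, hv, rfl, hv1, hv2, hv3⟩ := hD r hr
    have h5 := f2 v hv1 hv2 hv3
    by_cases hAr : A (2 * v)
    · exact h5.trans (h1 _ (by omega) (by omega) hAr)
    · have h6 := h3 (2 * v) (by omega) (by omega) hAr
        (Or.inl ⟨v, v, ((hV v).mp hv).2.1, ((hV v).mp hv).2.1, by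
          rw [Nat.mod_eq_of_lt (by omega)]; omega⟩)
      omega
  have hgV : ∀ r ∈ V, -1 ≤ g r := by
    intro r hr
    have h5 := (hV r).mp hr
    have h6 := h1 r h5.1.1 h5.1.2 h5.2.1
    have h7 := (f1 r h5.1.1 h5.1.2 h5.2.2).1
    omega
  have hother : ∀ r ∈ Finset.Icc 1 p, r ∉ V ∪ D → 0 ≤ g r := by
    intro r hr hr2
    rw [Finset.mem_Icc] at hr
    rw [Finset.mem_union, not_or] at hr2
    rcases Nat.lt_or_ge r p with h5 | h5
    · by_cases hAr : A r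
      · have h6 : ¬ hh 4 p ν r < 0 := fun h7 => hr2.1 ((hV r).mpr ⟨⟨hr.1, h5⟩, hAr, h7⟩)
        have h7 := h1 r hr.1 h5 hAr
        omega
      · exact h2 r hr.1 h5 hAr (f4 r hr.1 h5)
          ((remc_le_one (by omega)).trans (by omega))
    · have : r = p := by omega
      subst this
      exact f3.trans h4
  have hsub : V ∪ D ⊆ Finset.Icc 1 p := by
    intro r hr
    rw [Finset.mem_union] at hr
    rw [Finset.mem_Icc]
    rcases hr with hr | hr
    · have := ((hV r).mp hr).1; omega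
    · obtain ⟨v, hv, rfl, hv1, hv2, hv3⟩ := hD r hr
      omega
  have s1 := Finset.sum_le_sum_of_subset_of_nonneg hsub (f := g) hother
  rw [Finset.sum_union hdisj] at s1
  have s2 : (V.card : ℤ) * (-1) ≤ ∑ r ∈ V, g r := by
    have := Finset.card_nsmul_le_sum V g (-1) hgV
    simpa using this
  have s3 : (D.card : ℤ) * 1 ≤ ∑ r ∈ D, g r := by
    have := Finset.card_nsmul_le_sum D g 1 hgD
    simpa using this
  have s4 : D.card = V.card := Finset.card_image_of_injective _ fun a b h => by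
    have : 2 * a = 2 * b := h
    omega
  rw [s4] at s3
  linarith

end Pool.Agent.Lib.MP_472c23_co
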