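import Pool.Agent.Lib.MP_472c23_co.Defs

/-!
# `P_{4,n}` and `P_{5,n}` are not polynomials when `n ≡ 1 (mod 9)`
-/

set_option autoImplicit false

namespace Pool.Agent.Lib.MP_472c23_co

open Polynomial

/-- a primitive ninth root of unity -/
noncomputable def zeta9 : ℂ := Complex.exp (2 * Real.pi * Complex.I / (9 : ℕ))

theorem zeta9_prim : IsPrimitiveRoot zeta9 9 := Complex.isPrimitiveRoot_exp 9 (by norm_num)

theorem one_sub_ne_zero {b : ℕ} (hb : b ≠ 0) : (1 - X ^ b : ℂ[X]) ≠ 0 := by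
  intro h
  have := congrArg (fun p => Polynomial.coeff p 0) h
  simp only [coeff_sub, coeff_one_zero, coeff_X_pow, coeff_zero] at this
  rw [if_neg (by omega)] at this
  norm_num at this

theorem rm_one_sub {b : ℕ} (hb : b ≠ 0) :
    (1 - X ^ b : ℂ[X]).rootMultiplicity zeta9 = if 9 ∣ b then 1 else 0 := by
  split_ifs with h
  · apply le_antisymm
    · apply rootMultiplicity_le_one_of_separable
      have h1 : (X ^ b - 1 : ℂ[X]).Separable := by
        have : ((b : ℕ) : ℂ) ≠ 0 := by exact_mod_cast hb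
        exact X_pow_sub_one_separable_iff.mpr this
      have h2 : (1 - X ^ b : ℂ[X]) = -(X ^ b - 1) := by ring
      rw [h2]
      exact (Associated.separable (Associated.neg_right (Associated.refl _)) h1)
    · rw [Nat.one_le_iff_ne_zero]
      have h1 := (rootMultiplicity_pos (one_sub_ne_zero hb) (x := zeta9)).mpr (by
        rw [IsRoot, eval_sub, eval_one, eval_pow, eval_X,
          (zeta9_prim.pow_eq_one_iff_dvd b).mpr h, sub_self])
      omega
  · apply rootMultiplicity_eq_zero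
    rw [IsRoot, eval_sub, eval_one, eval_pow, eval_X, sub_eq_zero]
    intro hcon
    exact h ((zeta9_prim.pow_eq_one_iff_dvd b).mp hcon.symm)

/-- `[m]!` as a complex polynomial -/
noncomputable def Qc (m : ℕ) : ℂ[X] := ∏ i ∈ Finset.Icc 1 m, (1 - X ^ i)

theorem Qc_ne_zero (m : ℕ) : Qc m ≠ 0 := by
  unfold Qc
  rw [Finset.prod_ne_zero_iff]
  intro i hi
  rw [Finset.mem_Icc] at hi
  exact one_sub_ne_zero (by omega)

theorem rm_Qc (m : ℕ) : (Qc m).rootMultiplicity zeta9 = m / 9 := by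
  induction m with
  | zero =>
    have : Qc 0 = 1 := by unfold Qc; simp
    rw [this]
    simp [rootMultiplicity_eq_zero]
  | succ m ih =>
    have h1 : Qc (m + 1) = Qc m * (1 - X ^ (m + 1)) := by
      unfold Qc
      rw [Finset.prod_Icc_succ_top (by omega)]
    rw [h1, rootMultiplicity_mul (mul_ne_zero (Qc_ne_zero m) (one_sub_ne_zero (by omega))), ih,
      rm_one_sub (by omega), Nat.succ_div]

/-- `[m]!` as a rational polynomial -/
noncomputable def Qrat (m : ℕ) : ℚ[X] := ∏ i ∈ Finset.Icc 1 m, (1 - X ^ i)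

theorem u_eq (m : ℕ) : u m = algebraMap ℚ[X] (RatFunc ℚ) (1 - X ^ m) := by
  unfold u
  rw [map_sub, map_one, map_pow, RatFunc.algebraMap_X]

theorem qfact_eq (m : ℕ) : qfact m = algebraMap ℚ[X] (RatFunc ℚ) (Qrat m) := by
  unfold qfact Qrat
  rw [map_prod]
  refine Finset.prod_congr rfl fun i _ => ?_
  rw [map_sub, map_one, map_pow, RatFunc.algebraMap_X]

theorem u_ne_zero {m : ℕ} (hm : m ≠ 0) : u m ≠ 0 := by
  rw [u_eq]
  intro h
  rw [map_eq_zero_iff _ (RatFunc.algebraMap_injective ℚ)] at h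
  have := congrArg (fun p => Polynomial.coeff p 0) h
  simp only [coeff_sub, coeff_one_zero, coeff_X_pow, coeff_zero] at this
  rw [if_neg (by omega)] at this
  norm_num at this

theorem qfact_ne_zero (m : ℕ) : qfact m ≠ 0 := by
  unfold qfact
  rw [Finset.prod_ne_zero_iff]
  intro i hi
  rw [Finset.mem_Icc] at hi
  exact u_ne_zero (m := i) (by omega)

/-- the map from rational polynomials to complex polynomials -/
theorem map_Qrat (m : ℕ) : (Qrat m).map (algebraMap ℚ ℂ) = Qc m := by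
  unfold Qrat Qc
  rw [Polynomial.map_prod]
  refine Finset.prod_congr rfl fun i _ => ?_
  simp

theorem map_one_sub (m : ℕ) : (1 - X ^ m : ℚ[X]).map (algebraMap ℚ ℂ) = 1 - X ^ m := by
  simp

theorem not_isPoly_P4 {n : ℕ} (hn : n % 9 = 1) : ¬ IsPoly (P4 n) := by
  rintro ⟨p, hp⟩
  unfold P4 F at hp
  have h1 : algebraMap ℚ[X] (RatFunc ℚ) (p * ((1 - X ^ (2 * n + 3)) * (1 - X ^ (2 * n + 5)) *
      (1 - X ^ (2 * n + 7)) * (Qrat (3 * n) * Qrat (2 * n) ^ 2))) =
      algebraMap ℚ[X] (RatFunc ℚ) ((1 - X ^ 3) * (1 - X ^ 5) * (1 - X ^ 7) *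
        (Qrat (6 * n) * Qrat n)) := by
    simp only [map_mul, map_pow (algebraMap ℚ[X] (RatFunc ℚ)) (Qrat (2 * n)), ← u_eq, ← qfact_eq]
    rw [← hp]
    have a1 := u_ne_zero (m := 2 * n + 3) (by omega)
    have a2 := u_ne_zero (m := 2 * n + 5) (by omega)
    have a3 := u_ne_zero (m := 2 * n + 7) (by omega)
    have a4 := qfact_ne_zero (3 * n)
    have a5 := qfact_ne_zero (2 * n)
    field_simp
  have h2 := RatFunc.algebraMap_injective ℚ h1
  have h3 := congrArg (Polynomial.map (algebraMap ℚ ℂ)) h2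
  simp only [Polynomial.map_mul, Polynomial.map_pow (algebraMap ℚ ℂ) 2, map_Qrat, map_one_sub] at h3
  have b : ∀ m, m ≠ 0 → (1 - X ^ m : ℂ[X]) ≠ 0 := fun m hm => one_sub_ne_zero hm
  have h4 := congrArg (Polynomial.rootMultiplicity zeta9) h3
  have hA : (1 - X ^ 3) * (1 - X ^ 5) * (1 - X ^ 7) * (Qc (6 * n) * Qc n) ≠ (0 : ℂ[X]) :=
    mul_ne_zero (mul_ne_zero (mul_ne_zero (b 3 (by norm_num)) (b 5 (by norm_num)))
      (b 7 (by norm_num))) (mul_ne_zero (Qc_ne_zero _) (Qc_ne_zero _))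
  have hB := hA
  rw [← h3] at hB
  rw [rootMultiplicity_mul hB] at h4
  have hB2 := right_ne_zero_of_mul hB
  rw [rootMultiplicity_mul hB2, rootMultiplicity_mul (left_ne_zero_of_mul hB2),
    rootMultiplicity_mul (left_ne_zero_of_mul (left_ne_zero_of_mul hB2)),
    rootMultiplicity_mul (right_ne_zero_of_mul hB2), rootMultiplicity_mul hA,
    rootMultiplicity_mul (left_ne_zero_of_mul hA),
    rootMultiplicity_mul (left_ne_zero_of_mul (left_ne_zero_of_mul hA)),
    rootMultiplicity_mul (right_ne_zero_of_mul hA), sq,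
    rootMultiplicity_mul (mul_ne_zero (Qc_ne_zero _) (Qc_ne_zero _)),
    rm_Qc, rm_Qc, rm_Qc, rm_Qc, rm_one_sub (by omega), rm_one_sub (by omega),
    rm_one_sub (by omega), rm_one_sub (by omega), rm_one_sub (by omega),
    rm_one_sub (by omega)] at h4
  split_ifs at h4 <;> omega

theorem not_isPoly_P5 {n : ℕ} (hn : n % 9 = 1) : ¬ IsPoly (P5 n) := by
  rintro ⟨p, hp⟩
  unfold P5 F at hp
  have h1 : algebraMap ℚ[X] (RatFunc ℚ) (p * ((1 - X ^ (2 * n + 1)) * (1 - X ^ (2 * n + 3)) *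
      (1 - X ^ (2 * n + 5)) * (1 - X ^ (2 * n + 7)) * (Qrat (3 * n) * Qrat (2 * n) ^ 2))) =
      algebraMap ℚ[X] (RatFunc ℚ) ((1 - X ^ 3) ^ 2 * (1 - X ^ 5) * (1 - X ^ 7) *
        (Qrat (6 * n) * Qrat n)) := by
    simp only [map_mul, map_pow (algebraMap ℚ[X] (RatFunc ℚ)) (Qrat (2 * n)),
      map_pow (algebraMap ℚ[X] (RatFunc ℚ)) (1 - X ^ 3), ← u_eq, ← qfact_eq]
    rw [← hp]
    have a0 := u_ne_zero (m := 2 * n + 1) (by omega)
    have a1 := u_ne_zero (m := 2 * n + 3) (by omega)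
    have a2 := u_ne_zero (m := 2 * n + 5) (by omega)
    have a3 := u_ne_zero (m := 2 * n + 7) (by omega)
    have a4 := qfact_ne_zero (3 * n)
    have a5 := qfact_ne_zero (2 * n)
    field_simp
  have h2 := RatFunc.algebraMap_injective ℚ h1
  have h3 := congrArg (Polynomial.map (algebraMap ℚ ℂ)) h2
  simp only [Polynomial.map_mul, Polynomial.map_pow (algebraMap ℚ ℂ) 2, map_Qrat, map_one_sub] at h3
  have b : ∀ m, m ≠ 0 → (1 - X ^ m : ℂ[X]) ≠ 0 := fun m hm => one_sub_ne_zero hm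
  have h4 := congrArg (Polynomial.rootMultiplicity zeta9) h3
  have hA : (1 - X ^ 3) ^ 2 * (1 - X ^ 5) * (1 - X ^ 7) * (Qc (6 * n) * Qc n) ≠ (0 : ℂ[X]) :=
    mul_ne_zero (mul_ne_zero (mul_ne_zero (pow_ne_zero 2 (b 3 (by norm_num))) (b 5 (by norm_num)))
      (b 7 (by norm_num))) (mul_ne_zero (Qc_ne_zero _) (Qc_ne_zero _))
  have hB := hA
  rw [← h3] at hB
  rw [rootMultiplicity_mul hB] at h4
  have hB2 := right_ne_zero_of_mul hB
  rw [rootMultiplicity_mul hB2, rootMultiplicity_mul (left_ne_zero_of_mul hB2),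
    rootMultiplicity_mul (left_ne_zero_of_mul (left_ne_zero_of_mul hB2)),
    rootMultiplicity_mul (left_ne_zero_of_mul (left_ne_zero_of_mul (left_ne_zero_of_mul hB2))),
    rootMultiplicity_mul (right_ne_zero_of_mul hB2), rootMultiplicity_mul hA,
    rootMultiplicity_mul (left_ne_zero_of_mul hA),
    rootMultiplicity_mul (left_ne_zero_of_mul (left_ne_zero_of_mul hA)),
    rootMultiplicity_mul (right_ne_zero_of_mul hA), sq, sq,
    rootMultiplicity_mul (mul_ne_zero (Qc_ne_zero _) (Qc_ne_zero _)),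
    rootMultiplicity_mul (mul_ne_zero (b 3 (by norm_num)) (b 3 (by norm_num))),
    rm_Qc, rm_Qc, rm_Qc, rm_Qc, rm_one_sub (by omega), rm_one_sub (by omega),
    rm_one_sub (by omega), rm_one_sub (by omega), rm_one_sub (by omega),
    rm_one_sub (by omega), rm_one_sub (by omega)] at h4
  split_ifs at h4 <;> omega

end Pool.Agent.Lib.MP_472c23_co
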