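import Mathlib

/-!
# The local (residue class) inequality

For a modulus `p` and a remainder `ν < p` the contributions of the residue classes `r ∈ [1, p]`
are bounded below in terms of `hh s p ν r`. `RowOK s p ν` says that these bounds imply that the
total is nonnegative.
-/

set_option autoImplicit false

namespace Pool.Agent.Lib.MP_472c23_co

/-- shifted Landau function of `[6n]! [n]! / ([3n]! [2n]!^2)` -/
def psi (p ν r : ℕ) : ℤ :=
  (6 * (ν : ℤ) - r) / p + ((ν : ℤ) - r) / p - (3 * (ν : ℤ) - r) / p - 2 * ((2 * (ν : ℤ) - r) / p)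

/-- number of `i < s` with `2 ν + (2 i + 1) ≡ r (mod p)` -/
def remc (s p ν r : ℕ) : ℕ :=
  (List.range s).countP (fun i => (2 * ν + (2 * i + 1)) % p == r % p)

/-- the bound for a class with smallest element `p + r` -/
def hh (s p ν r : ℕ) : ℤ := psi p ν r - remc s p ν r

/-- `x` is one of the forbidden numbers `1, 3, …, 2 s - 1` -/
def Forb (s x : ℕ) : Prop := ∃ i, i < s ∧ x = 2 * i + 1

/-- `r` is reached from `A` by a sum of two elements modulo `p`, or by a sum of three elements -/
def Reach (p : ℕ) (A : ℕ → Prop) (r : ℕ) : Prop :=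
  (∃ x y, A x ∧ A y ∧ (x + y) % p = r) ∨ (∃ x y z, A x ∧ A y ∧ A z ∧ x + y + z = r)

/-- the local inequality -/
def RowOK (s p ν : ℕ) : Prop :=
  ∀ (A : ℕ → Prop) (g : ℕ → ℤ),
    (∀ r, A r → 1 ≤ r ∧ r < p ∧ ¬ Forb s (p + r)) →
    (∀ r, 1 ≤ r → r < p → A r → hh s p ν r ≤ g r) →
    (∀ r, 1 ≤ r → r < p → ¬ A r → -1 ≤ hh s p ν r → remc s p ν r ≤ 2 → 0 ≤ g r) →
    (∀ r, 1 ≤ r → r < p → ¬ A r → Reach p A r → hh s p ν r + 1 ≤ g r) →
    (hh s p ν p - 1 ≤ g p) →
    0 ≤ ∑ r ∈ Finset.Icc 1 p, g r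

/-- Boolean version of `Reach` for a list -/
def reachB (p : ℕ) (S : List ℕ) (r : ℕ) : Bool :=
  S.any fun x => S.any fun y => (x + y) % p == r || S.any fun z => x + y + z == r

/-- lower bound for the total when the elements of `A` in `rel` are those of `S` -/
def lb (s p ν : ℕ) (rel S : List ℕ) : ℤ :=
  (hh s p ν p - 1) +
    (rel.map fun r => if S.contains r then hh s p ν r else
      if reachB p S r then max 0 (hh s p ν r + 1) else 0).sum

/-- Boolean check of a row, with a list `rel` of relevant classes -/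
def check (s p ν : ℕ) (rel : List ℕ) : Bool :=
  rel.Nodup &&
  rel.all (fun r => decide (1 ≤ r) && decide (r < p)) &&
  (List.range p).all (fun r => r == 0 || (decide (-1 ≤ hh s p ν r) && decide (remc s p ν r ≤ 2) &&
    (rel.contains r || decide (0 ≤ hh s p ν r) ||
      (List.range s).any fun i => p + r == 2 * i + 1))) &&
  rel.sublists.all (fun S => decide (0 ≤ lb s p ν rel S))

theorem rowOK_of_check {s p ν : ℕ} (hp : 0 < p) (rel : List ℕ) (h : check s p ν rel = true) :
    RowOK s p ν := by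
  classical
  intro A g hA h1 h2 h3 h4
  unfold check at h
  rw [Bool.and_eq_true, Bool.and_eq_true, Bool.and_eq_true] at h
  obtain ⟨⟨⟨c1, c2⟩, c3⟩, c4⟩ := h
  have hnd : rel.Nodup := by simpa using c1
  rw [List.all_eq_true] at c2 c3 c4
  have hrel : ∀ r ∈ rel, 1 ≤ r ∧ r < p := by
    intro r hr
    simpa using c2 r hr
  have hrow : ∀ r, 1 ≤ r → r < p → (-1 ≤ hh s p ν r) ∧ remc s p ν r ≤ 2 ∧
      (r ∈ rel ∨ 0 ≤ hh s p ν r ∨ Forb s (p + r)) := by
    intro r hr1 hr2
    have := c3 r (List.mem_range.mpr hr2)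
    simp only [Bool.or_eq_true, Bool.and_eq_true, decide_eq_true_eq, beq_iff_eq,
      List.any_eq_true, List.mem_range, List.contains_iff_mem] at this
    rcases this with h0 | ⟨⟨h0, h0'⟩, h0''⟩
    · omega
    · refine ⟨h0, h0', ?_⟩
      rcases h0'' with (h5 | h5) | ⟨i, hi, h5⟩
      · exact Or.inl h5
      · exact Or.inr (Or.inl h5)
      · exact Or.inr (Or.inr ⟨i, hi, h5⟩)
  -- the classes outside `rel` contribute at least `0`
  have hout : ∀ r, 1 ≤ r → r < p → r ∉ rel → 0 ≤ g r := by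
    intro r hr1 hr2 hr3
    obtain ⟨h5, h6, h7⟩ := hrow r hr1 hr2
    by_cases hAr : A r
    · rcases h7 with h7 | h7 | h7
      · exact absurd h7 hr3
      · exact h7.trans (h1 r hr1 hr2 hAr)
      · exact absurd h7 (hA r hAr).2.2
    · exact h2 r hr1 hr2 hAr h5 h6
  let S : List ℕ := rel.filter fun r => decide (A r)
  have hS : 0 ≤ lb s p ν rel S := by
    have := c4 S (List.mem_sublists.mpr List.filter_sublist)
    simpa using this
  have hmemS : ∀ r, r ∈ S ↔ r ∈ rel ∧ A r := by
    intro r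
    simp [S]
  have hbound : ∀ r ∈ rel, (if S.contains r then hh s p ν r else
      if reachB p S r then max 0 (hh s p ν r + 1) else 0) ≤ g r := by
    intro r hr
    obtain ⟨hr1, hr2⟩ := hrel r hr
    obtain ⟨h5, h6, _⟩ := hrow r hr1 hr2
    split_ifs with h7 h8
    · rw [List.contains_iff_mem, hmemS] at h7
      exact h1 r hr1 hr2 h7.2
    · rw [List.contains_iff_mem, hmemS] at h7
      have hnA : ¬ A r := fun h9 => h7 ⟨hr, h9⟩
      refine max_le (h2 r hr1 hr2 hnA h5 h6) (h3 r hr1 hr2 hnA ?_)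
      unfold reachB at h8
      rw [List.any_eq_true] at h8
      obtain ⟨x, hx, h8⟩ := h8
      rw [List.any_eq_true] at h8
      obtain ⟨y, hy, h8⟩ := h8
      rw [Bool.or_eq_true, List.any_eq_true, beq_iff_eq] at h8
      rcases h8 with h8 | ⟨z, hz, h8⟩
      · exact Or.inl ⟨x, y, ((hmemS x).mp hx).2, ((hmemS y).mp hy).2, h8⟩
      · rw [beq_iff_eq] at h8
        exact Or.inr ⟨x, y, z, ((hmemS x).mp hx).2, ((hmemS y).mp hy).2, ((hmemS z).mp hz).2, h8⟩
    · rw [List.contains_iff_mem, hmemS] at h7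
      exact h2 r hr1 hr2 (fun h9 => h7 ⟨hr, h9⟩) h5 h6
  -- sum over `rel`
  have hsum1 : (rel.map fun r => if S.contains r then hh s p ν r else
      if reachB p S r then max 0 (hh s p ν r + 1) else 0).sum ≤ ∑ r ∈ rel.toFinset, g r := by
    rw [List.sum_toFinset g hnd]
    exact List.sum_le_sum fun r hr => hbound r hr
  have hsub : insert p rel.toFinset ⊆ Finset.Icc 1 p := by
    intro r hr
    rw [Finset.mem_insert, List.mem_toFinset] at hr
    rw [Finset.mem_Icc]
    rcases hr with rfl | hr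
    · omega
    · have := hrel r hr; omega
  have hsum2 : ∑ r ∈ insert p rel.toFinset, g r ≤ ∑ r ∈ Finset.Icc 1 p, g r := by
    refine Finset.sum_le_sum_of_subset_of_nonneg hsub ?_
    intro r hr hr2
    rw [Finset.mem_Icc] at hr
    rw [Finset.mem_insert, List.mem_toFinset, not_or] at hr2
    exact hout r hr.1 (by omega) hr2.2
  rw [Finset.sum_insert] at hsum2
  · unfold lb at hS
    linarith
  · rw [List.mem_toFinset]
    intro hcon
    have := hrel p hcon
    omega

end Pool.Agent.Lib.MP_472c23_co
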