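import Pool.Agent.Lib.MP_472c23_co.Apply

/-!
# The small cases, by explicit polynomials
-/

set_option autoImplicit false

namespace Pool.Agent.Lib.MP_472c23_co

open Polynomial

/-- polynomial with a given list of coefficients -/
noncomputable def toPoly : List ℤ → ℤ[X]
  | [] => 0
  | a :: l => C a + X * toPoly l

/-- multiplication by `1 - X ^ b` on lists -/
def mulF (l : List ℤ) (b : ℕ) : List ℤ :=
  List.zipWith (· - ·) (l ++ List.replicate b 0) (List.replicate b 0 ++ l)

theorem toPoly_append (l1 l2 : List ℤ) :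
    toPoly (l1 ++ l2) = toPoly l1 + X ^ l1.length * toPoly l2 := by
  induction l1 with
  | nil => simp [toPoly]
  | cons a l ih =>
    rw [List.cons_append, toPoly, toPoly, ih, List.length_cons]
    ring

theorem toPoly_replicate (b : ℕ) : toPoly (List.replicate b 0) = 0 := by
  induction b with
  | zero => rfl
  | succ b ih => rw [List.replicate_succ, toPoly, ih]; simp

theorem toPoly_zipWith (l1 l2 : List ℤ) (h : l1.length = l2.length) :
    toPoly (List.zipWith (· - ·) l1 l2) = toPoly l1 - toPoly l2 := by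
  induction l1 generalizing l2 with
  | nil =>
    have : l2 = [] := List.eq_nil_of_length_eq_zero (by simpa using h.symm)
    subst this
    simp [toPoly]
  | cons a l ih =>
    cases l2 with
    | nil => simp at h
    | cons a' l' =>
      rw [List.zipWith_cons_cons, toPoly, toPoly, toPoly, ih l' (by simpa using h), C_sub]
      ring

theorem toPoly_mulF (l : List ℤ) (b : ℕ) : toPoly (mulF l b) = toPoly l * (1 - X ^ b) := by
  unfold mulF
  rw [toPoly_zipWith _ _ (by simp [add_comm]), toPoly_append, toPoly_append, toPoly_replicate,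
    List.length_replicate]
  ring

theorem toPoly_foldl (E : List ℕ) (l : List ℤ) :
    toPoly (E.foldl mulF l) = toPoly l * (E.map fun b => (1 - X ^ b : ℤ[X])).prod := by
  induction E generalizing l with
  | nil => simp
  | cons b E ih =>
    rw [List.foldl_cons, ih, toPoly_mulF, List.map_cons, List.prod_cons, mul_assoc]

theorem coeff_toPoly_nonneg (l : List ℤ) (h : l.all (fun a => decide (0 ≤ a)) = true) (k : ℕ) :
    0 ≤ (toPoly l).coeff k := by
  induction l generalizing k with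
  | nil => simp [toPoly]
  | cons a l ih =>
    rw [List.all_cons, Bool.and_eq_true] at h
    rw [toPoly, coeff_add]
    cases k with
    | zero => simpa using h.1
    | succ k =>
      rw [coeff_X_mul, coeff_C, if_neg (by omega), zero_add]
      exact ih h.2 k

/-- exponents in the denominator -/
def denL (s n : ℕ) : List ℕ :=
  (List.range s).map (fun i => 2 * n + (2 * i + 1)) ++
    (List.range' 1 (3 * n) ++ (List.range' 1 (2 * n) ++ List.range' 1 (2 * n)))

/-- exponents in the numerator -/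
def numL (s n : ℕ) : List ℕ :=
  (List.range s).map (fun i => 2 * i + 1) ++ (List.range' 1 (6 * n) ++ List.range' 1 n)

theorem Qp_eq_list (m : ℕ) :
    Qp m = ((List.range' 1 m).map fun b => (1 - X ^ b : ℤ[X])).prod := by
  unfold Qp
  induction m with
  | zero => simp
  | succ m ih =>
    rw [Finset.prod_Icc_succ_top (by omega), ih, List.range'_concat, List.map_append,
      List.prod_append]
    simp [add_comm]

theorem small_case {s n : ℕ} (l : List ℤ) (h1 : l.all (fun a => decide (0 ≤ a)) = true)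
    (h2 : (denL s n).foldl mulF l = (numL s n).foldl mulF [1]) :
    ∃ P : ℤ[X], (∀ k, 0 ≤ P.coeff k) ∧
      P * ((∏ i ∈ Finset.range s, (1 - X ^ (2 * n + (2 * i + 1)))) * Qp (3 * n) * Qp (2 * n) ^ 2) =
        (∏ i ∈ Finset.range s, (1 - X ^ (2 * i + 1))) * Qp (6 * n) * Qp n := by
  refine ⟨toPoly l, coeff_toPoly_nonneg l h1, ?_⟩
  have h3 := congrArg toPoly h2
  rw [toPoly_foldl, toPoly_foldl] at h3
  have e1 : toPoly [1] = 1 := by simp [toPoly]
  have e2 : ∀ f : ℕ → ℕ, ((List.range s).map fun i => (1 - X ^ f i : ℤ[X])).prod =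
      ∏ i ∈ Finset.range s, (1 - X ^ f i) := by
    intro f
    rfl
  rw [e1, one_mul] at h3
  unfold denL numL at h3
  simp only [List.map_append, List.prod_append, List.map_map] at h3
  rw [← Qp_eq_list, ← Qp_eq_list, ← Qp_eq_list, ← Qp_eq_list] at h3
  have e3 := e2 fun i => 2 * n + (2 * i + 1)
  have e4 := e2 fun i => 2 * i + 1
  simp only [Function.comp_def] at h3
  rw [e3, e4] at h3
  calc _ = toPoly l * ((∏ i ∈ Finset.range s, (1 - X ^ (2 * n + (2 * i + 1)))) *
        (Qp (3 * n) * (Qp (2 * n) * Qp (2 * n)))) := by ring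
    _ = _ := by rw [h3]; ring

/-- coefficients of `S_2` for `n = 1` -/
def coef21 : List ℤ := [
  1, 0, 2, 0, 2, 0, 1]

/-- coefficients of `S_2` for `n = 2` -/
def coef22 : List ℤ := [
  1, 0, 1, 1, 3, 2, 4, 4, 7, 6, 9, 8, 12, 10, 13, 11, 14, 11, 13, 10, 12, 8, 9, 6, 7, 4, 4, 2, 3,
  1, 1, 0, 1]

/-- coefficients of `S_4` for `n = 2` -/
def coef42 : List ℤ := [
  1, 0, 1, 1, 3, 1, 4, 2, 6, 3, 6, 3, 8, 3, 6, 3, 6, 2, 4, 1, 3, 1, 1, 0, 1]

/-- coefficients of `S_4` for `n = 3` -/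
def coef43 : List ℤ := [
  1, 0, 1, 0, 3, 1, 5, 1, 8, 4, 12, 6, 18, 11, 24, 16, 32, 24, 42, 31, 51, 41, 62, 49, 73, 58,
  82, 65, 90, 71, 97, 74, 99, 76, 99, 74, 97, 71, 90, 65, 82, 58, 73, 49, 62, 41, 51, 31, 42, 24,
  32, 16, 24, 11, 18, 6, 12, 4, 8, 1, 5, 1, 3, 0, 1, 0, 1]

/-- coefficients of `S_4` for `n = 4` -/
def coef44 : List ℤ := [
  1, 0, 1, 0, 2, 1, 4, 2, 7, 4, 10, 8, 17, 14, 25, 23, 38, 36, 55, 54, 79, 79, 109, 112, 151,
  154, 201, 208, 264, 274, 341, 354, 433, 449, 537, 559, 660, 683, 795, 822, 944, 973, 1104,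
  1133, 1273, 1301, 1444, 1471, 1620, 1639, 1788, 1802, 1948, 1953, 2094, 2087, 2223, 2202, 2324,
  2291, 2404, 2352, 2450, 2384, 2466, 2384, 2450, 2352, 2404, 2291, 2324, 2202, 2223, 2087, 2094,
  1953, 1948, 1802, 1788, 1639, 1620, 1471, 1444, 1301, 1273, 1133, 1104, 973, 944, 822, 795,
  683, 660, 559, 537, 449, 433, 354, 341, 274, 264, 208, 201, 154, 151, 112, 109, 79, 79, 54, 55,
  36, 38, 23, 25, 14, 17, 8, 10, 4, 7, 2, 4, 1, 2, 0, 1, 0, 1]

/-- coefficients of `S_4` for `n = 5` -/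
def coef45 : List ℤ := [
  1, 0, 1, 0, 2, 0, 4, 1, 7, 3, 11, 5, 17, 10, 26, 19, 40, 32, 60, 51, 87, 80, 126, 121, 182,
  179, 256, 259, 356, 365, 491, 509, 666, 699, 893, 942, 1184, 1254, 1549, 1651, 2008, 2143,
  2574, 2750, 3262, 3492, 4095, 4383, 5095, 5448, 6273, 6705, 7654, 8168, 9259, 9862, 11098,
  11803, 13191, 13995, 15550, 16456, 18174, 19193, 21075, 22196, 24249, 25467, 27677, 28995,
  31354, 32752, 35257, 36720, 39344, 40866, 43589, 45138, 47949, 49502, 52363, 53904, 56783,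
  58273, 61152, 62561, 65394, 66704, 69457, 70624, 73275, 74268, 76770, 77576, 79898, 80477,
  82603, 82931, 84821, 84893, 86525, 86313, 87684, 87180, 88263, 87476, 88263, 87180, 87684,
  86313, 86525, 84893, 84821, 82931, 82603, 80477, 79898, 77576, 76770, 74268, 73275, 70624,
  69457, 66704, 65394, 62561, 61152, 58273, 56783, 53904, 52363, 49502, 47949, 45138, 43589,
  40866, 39344, 36720, 35257, 32752, 31354, 28995, 27677, 25467, 24249, 22196, 21075, 19193,
  18174, 16456, 15550, 13995, 13191, 11803, 11098, 9862, 9259, 8168, 7654, 6705, 6273, 5448,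
  5095, 4383, 4095, 3492, 3262, 2750, 2574, 2143, 2008, 1651, 1549, 1254, 1184, 942, 893, 699,
  666, 509, 491, 365, 356, 259, 256, 179, 182, 121, 126, 80, 87, 51, 60, 32, 40, 19, 26, 10, 17,
  5, 11, 3, 7, 1, 4, 0, 2, 0, 1, 0, 1]

/-- coefficients of `S_4` for `n = 6` -/
def coef46 : List ℤ := [
  1, 0, 1, 0, 2, 0, 3, 1, 6, 3, 9, 6, 15, 10, 21, 18, 34, 31, 52, 51, 79, 79, 115, 120, 171, 180,
  247, 268, 357, 388, 505, 554, 708, 782, 982, 1092, 1354, 1506, 1840, 2055, 2482, 2772, 3316,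
  3707, 4396, 4914, 5776, 6453, 7534, 8402, 9740, 10855, 12508, 13913, 15943, 17703, 20180,
  22364, 25361, 28050, 31671, 34947, 39281, 43261, 48426, 53206, 59325, 65035, 72242, 79015,
  87448, 95432, 105265, 114601, 125981, 136853, 149959, 162515, 177530, 191956, 209063, 225538,
  244913, 263617, 285466, 306559, 331039, 354720, 382014, 408419, 438693, 467981, 501376, 533679,
  570307, 605732, 645722, 684335, 727730, 769616, 816466, 861609, 911919, 960308, 1014033,
  1065608, 1122647, 1177295, 1237550, 1295092, 1358344, 1418610, 1484639, 1547330, 1615856,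
  1680677, 1751356, 1817951, 1890377, 1958332, 2032109, 2100947, 2175553, 2244823, 2319754,
  2388879, 2463588, 2532022, 2605918, 2673080, 2745540, 2810821, 2881274, 2944041, 3011822,
  3071514, 3136026, 3191996, 3252646, 3304332, 3360533, 3407393, 3458582, 3500097, 3545821,
  3581503, 3621259, 3650746, 3684159, 3707051, 3733800, 3749836, 3769654, 3778635, 3791317,
  3793102, 3798590, 3793102, 3791317, 3778635, 3769654, 3749836, 3733800, 3707051, 3684159,
  3650746, 3621259, 3581503, 3545821, 3500097, 3458582, 3407393, 3360533, 3304332, 3252646,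
  3191996, 3136026, 3071514, 3011822, 2944041, 2881274, 2810821, 2745540, 2673080, 2605918,
  2532022, 2463588, 2388879, 2319754, 2244823, 2175553, 2100947, 2032109, 1958332, 1890377,
  1817951, 1751356, 1680677, 1615856, 1547330, 1484639, 1418610, 1358344, 1295092, 1237550,
  1177295, 1122647, 1065608, 1014033, 960308, 911919, 861609, 816466, 769616, 727730, 684335,
  645722, 605732, 570307, 533679, 501376, 467981, 438693, 408419, 382014, 354720, 331039, 306559,
  285466, 263617, 244913, 225538, 209063, 191956, 177530, 162515, 149959, 136853, 125981, 114601,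
  105265, 95432, 87448, 79015, 72242, 65035, 59325, 53206, 48426, 43261, 39281, 34947, 31671,
  28050, 25361, 22364, 20180, 17703, 15943, 13913, 12508, 10855, 9740, 8402, 7534, 6453, 5776,
  4914, 4396, 3707, 3316, 2772, 2482, 2055, 1840, 1506, 1354, 1092, 982, 782, 708, 554, 505, 388,
  357, 268, 247, 180, 171, 120, 115, 79, 79, 51, 52, 31, 34, 18, 21, 10, 15, 6, 9, 3, 6, 1, 3, 0,
  2, 0, 1, 0, 1]

theorem case21 : ∃ P : ℤ[X], (∀ k, 0 ≤ P.coeff k) ∧
      P * ((∏ i ∈ Finset.range 2, (1 - X ^ (2 * 1 + (2 * i + 1)))) * Qp (3 * 1) *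
        Qp (2 * 1) ^ 2) =
        (∏ i ∈ Finset.range 2, (1 - X ^ (2 * i + 1))) * Qp (6 * 1) * Qp 1 :=
  small_case coef21 (by decide +kernel) (by decide +kernel)

theorem case22 : ∃ P : ℤ[X], (∀ k, 0 ≤ P.coeff k) ∧
      P * ((∏ i ∈ Finset.range 2, (1 - X ^ (2 * 2 + (2 * i + 1)))) * Qp (3 * 2) *
        Qp (2 * 2) ^ 2) =
        (∏ i ∈ Finset.range 2, (1 - X ^ (2 * i + 1))) * Qp (6 * 2) * Qp 2 :=
  small_case coef22 (by decide +kernel) (by decide +kernel)

theorem case42 : ∃ P : ℤ[X], (∀ k, 0 ≤ P.coeff k) ∧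
      P * ((∏ i ∈ Finset.range 4, (1 - X ^ (2 * 2 + (2 * i + 1)))) * Qp (3 * 2) *
        Qp (2 * 2) ^ 2) =
        (∏ i ∈ Finset.range 4, (1 - X ^ (2 * i + 1))) * Qp (6 * 2) * Qp 2 :=
  small_case coef42 (by decide +kernel) (by decide +kernel)

theorem case43 : ∃ P : ℤ[X], (∀ k, 0 ≤ P.coeff k) ∧
      P * ((∏ i ∈ Finset.range 4, (1 - X ^ (2 * 3 + (2 * i + 1)))) * Qp (3 * 3) *
        Qp (2 * 3) ^ 2) =
        (∏ i ∈ Finset.range 4, (1 - X ^ (2 * i + 1))) * Qp (6 * 3) * Qp 3 :=
  small_case coef43 (by decide +kernel) (by decide +kernel)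

theorem case44 : ∃ P : ℤ[X], (∀ k, 0 ≤ P.coeff k) ∧
      P * ((∏ i ∈ Finset.range 4, (1 - X ^ (2 * 4 + (2 * i + 1)))) * Qp (3 * 4) *
        Qp (2 * 4) ^ 2) =
        (∏ i ∈ Finset.range 4, (1 - X ^ (2 * i + 1))) * Qp (6 * 4) * Qp 4 :=
  small_case coef44 (by decide +kernel) (by decide +kernel)

theorem case45 : ∃ P : ℤ[X], (∀ k, 0 ≤ P.coeff k) ∧
      P * ((∏ i ∈ Finset.range 4, (1 - X ^ (2 * 5 + (2 * i + 1)))) * Qp (3 * 5) *
        Qp (2 * 5) ^ 2) =
        (∏ i ∈ Finset.range 4, (1 - X ^ (2 * i + 1))) * Qp (6 * 5) * Qp 5 :=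
  small_case coef45 (by decide +kernel) (by decide +kernel)

theorem case46 : ∃ P : ℤ[X], (∀ k, 0 ≤ P.coeff k) ∧
      P * ((∏ i ∈ Finset.range 4, (1 - X ^ (2 * 6 + (2 * i + 1)))) * Qp (3 * 6) *
        Qp (2 * 6) ^ 2) =
        (∏ i ∈ Finset.range 4, (1 - X ^ (2 * i + 1))) * Qp (6 * 6) * Qp 6 :=
  small_case coef46 (by decide +kernel) (by decide +kernel)

/-- **Positivity of `S_s`** for all `n`. -/
theorem exists_S_all {s n : ℕ} (hs : s = 1 ∨ s = 2 ∨ s = 4) (hn : 1 ≤ n) (hn4 : s = 4 → 2 ≤ n)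
    (h9 : s = 4 → n % 9 ≠ 1) :
    ∃ P : ℤ[X], (∀ k, 0 ≤ P.coeff k) ∧
      P * ((∏ i ∈ Finset.range s, (1 - X ^ (2 * n + (2 * i + 1)))) * Qp (3 * n) * Qp (2 * n) ^ 2) =
        (∏ i ∈ Finset.range s, (1 - X ^ (2 * i + 1))) * Qp (6 * n) * Qp n := by
  by_cases h : 2 * s ≤ n + 1
  · exact exists_S hs h h9
  · rcases hs with rfl | rfl | rfl
    · omega
    · rcases (show n = 1 ∨ n = 2 by omega) with rfl | rfl
      · exact case21
      · exact case22
    · have := hn4 rfl
      rcases (show n = 2 ∨ n = 3 ∨ n = 4 ∨ n = 5 ∨ n = 6 by omega) with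
        rfl | rfl | rfl | rfl | rfl
      · exact case42
      · exact case43
      · exact case44
      · exact case45
      · exact case46

end Pool.Agent.Lib.MP_472c23_co
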